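import Mathlib

/-!
# Two-dimensional blocks
-/

open Set Filter Topology

namespace Pool.Agent.R278.LS

/-- The parameters, strictly decreasing to zero. -/
noncomputable def ep (n : ℕ) : ℝ := 1 / ((n : ℝ) + 2)

theorem ep_pos (n : ℕ) : 0 < ep n := by
  unfold ep
  positivity

theorem ep_lt (n : ℕ) : ep (n + 1) < ep n := by
  unfold ep
  apply one_div_lt_one_div_of_lt (by positivity)
  push_cast
  linarith

theorem ep_anti : StrictAnti ep := strictAnti_nat_of_succ_lt ep_lt

theorem ep_le (n : ℕ) : ep n ≤ 1 / 2 := by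
  unfold ep
  apply one_div_le_one_div_of_le (by norm_num)
  have : (0 : ℝ) ≤ n := Nat.cast_nonneg n
  linarith

/-- The square of the norm of a block. -/
noncomputable def gg (e a b : ℝ) : ℝ := a ^ 2 + b ^ 2 + 2 * e * |a * b|

theorem gg_nonneg {e : ℝ} (he : 0 ≤ e) (a b : ℝ) : 0 ≤ gg e a b := by
  unfold gg
  positivity

theorem sq_le_gg {e : ℝ} (he : 0 ≤ e) (a b : ℝ) : a ^ 2 + b ^ 2 ≤ gg e a b := by
  unfold gg
  have : 0 ≤ 2 * e * |a * b| := by positivity
  linarith

theorem gg_le {e : ℝ} (he1 : e ≤ 1 / 2) (a b : ℝ) :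
    gg e a b ≤ 2 * (a ^ 2 + b ^ 2) := by
  unfold gg
  have h1 : |a * b| ≤ a ^ 2 + b ^ 2 := by
    rw [abs_mul]
    nlinarith [sq_nonneg (|a| - |b|), sq_abs a, sq_abs b, abs_nonneg a, abs_nonneg b]
  nlinarith [abs_nonneg (a * b)]

theorem gg_smul (e c a b : ℝ) : gg e (c * a) (c * b) = c ^ 2 * gg e a b := by
  unfold gg
  have : |c * a * (c * b)| = c ^ 2 * |a * b| := by
    rw [show c * a * (c * b) = c ^ 2 * (a * b) by ring, abs_mul, abs_of_nonneg (sq_nonneg c)]
  rw [this]
  ring

/-- The Minkowski inequality for a block. -/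
theorem gg_add {e : ℝ} (he : 0 ≤ e) (he1 : e ≤ 1) (a b c d : ℝ) :
    Real.sqrt (gg e (a + c) (b + d)) ≤ Real.sqrt (gg e a b) + Real.sqrt (gg e c d) := by
  have h1 := gg_nonneg he a b
  have h2 := gg_nonneg he c d
  apply Real.sqrt_le_iff.2
  refine ⟨by positivity, ?_⟩
  rw [add_sq, Real.sq_sqrt h1, Real.sq_sqrt h2]
  set X := |a| * |c| + |b| * |d| + e * (|a| * |d| + |b| * |c|) with hX
  have hX0 : 0 ≤ X := by positivity
  have h3 : gg e (a + c) (b + d) ≤ gg e a b + gg e c d + 2 * X := by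
    unfold gg
    have h4 : |(a + c) * (b + d)| ≤ |a * b| + |c * d| + |a| * |d| + |b| * |c| := by
      have : (a + c) * (b + d) = (a * b + c * d) + (a * d + b * c) := by ring
      rw [this]
      calc |(a * b + c * d) + (a * d + b * c)| ≤ |a * b + c * d| + |a * d + b * c| :=
            abs_add_le _ _
        _ ≤ (|a * b| + |c * d|) + (|a * d| + |b * c|) :=
            add_le_add (abs_add_le _ _) (abs_add_le _ _)
        _ = |a * b| + |c * d| + |a| * |d| + |b| * |c| := by
            rw [abs_mul a d, abs_mul b c]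
            ring
    have h5 : (a + c) ^ 2 + (b + d) ^ 2 ≤ a ^ 2 + b ^ 2 + (c ^ 2 + d ^ 2)
        + 2 * (|a| * |c| + |b| * |d|) := by
      have e1 : a * c ≤ |a| * |c| := by
        rw [← abs_mul]
        exact le_abs_self _
      have e2 : b * d ≤ |b| * |d| := by
        rw [← abs_mul]
        exact le_abs_self _
      nlinarith
    have h6 := mul_le_mul_of_nonneg_left h4 (show 0 ≤ 2 * e by positivity)
    rw [hX]
    nlinarith
  have h7 : X ≤ Real.sqrt (gg e a b) * Real.sqrt (gg e c d) := by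
    rw [← Real.sqrt_mul h1]
    apply Real.le_sqrt_of_sq_le
    unfold gg
    rw [hX, ← sq_abs a, ← sq_abs b, ← sq_abs c, ← sq_abs d, abs_mul a b, abs_mul c d]
    have hid : (|a| ^ 2 + |b| ^ 2 + 2 * e * (|a| * |b|)) * (|c| ^ 2 + |d| ^ 2
        + 2 * e * (|c| * |d|)) - (|a| * |c| + |b| * |d| + e * (|a| * |d| + |b| * |c|)) ^ 2
        = (1 - e ^ 2) * (|a| * |d| - |b| * |c|) ^ 2 := by ring
    have : 0 ≤ (1 - e ^ 2) * (|a| * |d| - |b| * |c|) ^ 2 := by
      apply mul_nonneg _ (sq_nonneg _)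
      nlinarith
    linarith
  linarith

/-- The `n`-th block. -/
def Blk (_ : ℕ) : Type := ℝ × ℝ

namespace Blk

variable {n : ℕ}

instance : AddCommGroup (Blk n) := inferInstanceAs (AddCommGroup (ℝ × ℝ))
instance : Module ℝ (Blk n) := inferInstanceAs (Module ℝ (ℝ × ℝ))

/-- The point of the block with given coordinates. -/
def mk (n : ℕ) (a b : ℝ) : Blk n := (a, b)

/-- First coordinate. -/
def fs (z : Blk n) : ℝ := (show ℝ × ℝ from z).1
/-- Second coordinate. -/
def sn (z : Blk n) : ℝ := (show ℝ × ℝ from z).2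

@[simp] theorem fs_mk (a b : ℝ) : (mk n a b).fs = a := rfl
@[simp] theorem sn_mk (a b : ℝ) : (mk n a b).sn = b := rfl
@[simp] theorem fs_add (z w : Blk n) : (z + w).fs = z.fs + w.fs := rfl
@[simp] theorem sn_add (z w : Blk n) : (z + w).sn = z.sn + w.sn := rfl
@[simp] theorem fs_sub (z w : Blk n) : (z - w).fs = z.fs - w.fs := rfl
@[simp] theorem sn_sub (z w : Blk n) : (z - w).sn = z.sn - w.sn := rfl
@[simp] theorem fs_smul (c : ℝ) (z : Blk n) : (c • z).fs = c * z.fs := rfl
@[simp] theorem sn_smul (c : ℝ) (z : Blk n) : (c • z).sn = c * z.sn := rfl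
@[simp] theorem fs_zero : (0 : Blk n).fs = 0 := rfl
@[simp] theorem sn_zero : (0 : Blk n).sn = 0 := rfl

theorem ext' {z w : Blk n} (h1 : z.fs = w.fs) (h2 : z.sn = w.sn) : z = w := Prod.ext h1 h2

noncomputable instance : Norm (Blk n) := ⟨fun z => Real.sqrt (gg (ep n) z.fs z.sn)⟩

theorem norm_def (z : Blk n) : ‖z‖ = Real.sqrt (gg (ep n) z.fs z.sn) := rfl

theorem core : NormedSpace.Core ℝ (Blk n) where
  norm_nonneg _ := Real.sqrt_nonneg _
  norm_smul c x := by
    rw [norm_def, norm_def, fs_smul, sn_smul, gg_smul, Real.sqrt_mul (sq_nonneg c),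
      Real.sqrt_sq_eq_abs, Real.norm_eq_abs]
  norm_triangle x y := by
    rw [norm_def, norm_def, norm_def, fs_add, sn_add]
    exact gg_add (ep_pos n).le ((ep_le n).trans (by norm_num)) _ _ _ _
  norm_eq_zero_iff x := by
    rw [norm_def, Real.sqrt_eq_zero (gg_nonneg (ep_pos n).le _ _)]
    constructor
    · intro h
      have h1 := sq_le_gg (ep_pos n).le x.fs x.sn
      apply ext'
      · rw [fs_zero]
        nlinarith [sq_nonneg x.fs, sq_nonneg x.sn]
      · rw [sn_zero]
        nlinarith [sq_nonneg x.fs, sq_nonneg x.sn]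
    · rintro rfl
      simp [gg]

noncomputable instance : NormedAddCommGroup (Blk n) := NormedAddCommGroup.ofCore core
noncomputable instance : NormedSpace ℝ (Blk n) := NormedSpace.ofCore core
instance : FiniteDimensional ℝ (Blk n) := inferInstanceAs (FiniteDimensional ℝ (ℝ × ℝ))
instance : CompleteSpace (Blk n) := FiniteDimensional.complete ℝ _

theorem norm_eq (z : Blk n) : ‖z‖ = Real.sqrt (gg (ep n) z.fs z.sn) := rfl

theorem norm_sq (z : Blk n) : ‖z‖ ^ 2 = gg (ep n) z.fs z.sn := by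
  rw [norm_eq, Real.sq_sqrt (gg_nonneg (ep_pos n).le _ _)]

theorem mk_add (a b c d : ℝ) : mk n a b + mk n c d = mk n (a + c) (b + d) := rfl

theorem smul_mk (c a b : ℝ) : c • mk n a b = mk n (c * a) (c * b) := rfl

end Blk

/-- Signed permutations of two coordinates. -/
abbrev SP : Type := Bool × Bool × Bool

/-- The sign of a bool. -/
def sg (b : Bool) : ℝ := if b then 1 else -1

theorem sg_mul_self (b : Bool) : sg b * sg b = 1 := by
  cases b <;> simp [sg]

theorem abs_sg (b : Bool) : |sg b| = 1 := by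
  cases b <;> simp [sg]

/-- Entries of the matrix of the signed permutation. -/
def m11 (σ : SP) : ℝ := if σ.1 then 0 else sg σ.2.1
/-- Entries of the matrix of the signed permutation. -/
def m12 (σ : SP) : ℝ := if σ.1 then sg σ.2.2 else 0
/-- Entries of the matrix of the signed permutation. -/
def m21 (σ : SP) : ℝ := if σ.1 then sg σ.2.1 else 0
/-- Entries of the matrix of the signed permutation. -/
def m22 (σ : SP) : ℝ := if σ.1 then 0 else sg σ.2.2

/-- The signed permutation acting on a block. -/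
noncomputable def spE (n : ℕ) (σ : SP) : Blk n ≃ₗᵢ[ℝ] Blk n where
  toFun z := Blk.mk n (m11 σ * z.fs + m12 σ * z.sn) (m21 σ * z.fs + m22 σ * z.sn)
  invFun z := Blk.mk n (m11 σ * z.fs + m21 σ * z.sn) (m12 σ * z.fs + m22 σ * z.sn)
  map_add' z w := by
    apply Blk.ext' <;> simp <;> ring
  map_smul' c z := by
    apply Blk.ext' <;> simp <;> ring
  left_inv z := by
    have h1 := sg_mul_self σ.2.1
    have h2 := sg_mul_self σ.2.2
    apply Blk.ext'
    · simp only [Blk.fs_mk, Blk.sn_mk, m11, m12, m21, m22]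
      split_ifs <;> linear_combination z.fs * h1
    · simp only [Blk.fs_mk, Blk.sn_mk, m11, m12, m21, m22]
      split_ifs <;> linear_combination z.sn * h2
  right_inv z := by
    have h1 := sg_mul_self σ.2.1
    have h2 := sg_mul_self σ.2.2
    apply Blk.ext'
    · simp only [Blk.fs_mk, Blk.sn_mk, m11, m12, m21, m22]
      split_ifs
      · linear_combination z.fs * h2
      · linear_combination z.fs * h1
    · simp only [Blk.fs_mk, Blk.sn_mk, m11, m12, m21, m22]
      split_ifs
      · linear_combination z.sn * h1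
      · linear_combination z.sn * h2
  norm_map' z := by
    rw [Blk.norm_eq, Blk.norm_eq]
    congr 1
    change gg (ep n) (m11 σ * z.fs + m12 σ * z.sn) (m21 σ * z.fs + m22 σ * z.sn) = _
    have h1 := sg_mul_self σ.2.1
    have h2 := sg_mul_self σ.2.2
    have h3 := abs_sg σ.2.1
    have h4 := abs_sg σ.2.2
    unfold gg
    simp only [m11, m12, m21, m22]
    split_ifs
    · simp only [zero_mul, zero_add, add_zero, abs_mul, h3, h4]
      linear_combination z.sn ^ 2 * h2 + z.fs ^ 2 * h1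
    · simp only [zero_mul, zero_add, add_zero, abs_mul, h3, h4]
      linear_combination z.sn ^ 2 * h2 + z.fs ^ 2 * h1

theorem spE_apply (n : ℕ) (σ : SP) (z : Blk n) :
    spE n σ z = Blk.mk n (m11 σ * z.fs + m12 σ * z.sn) (m21 σ * z.fs + m22 σ * z.sn) := rfl

theorem exists_sg {a : ℝ} (h : a ^ 2 = 1) : ∃ s : Bool, sg s = a := by
  rcases sq_eq_one_iff.1 h with h | h
  · exact ⟨true, by simp [sg, h]⟩
  · exact ⟨false, by simp [sg, h]⟩

/-- The matrix of a pair of vectors is a signed permutation. -/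
theorem exists_sp {a a' b b' : ℝ} (h1 : a * a' = 0) (h2 : b * b' = 0) (h3 : a ^ 2 + a' ^ 2 = 1)
    (h4 : b ^ 2 + b' ^ 2 = 1) (h5 : a * b' - a' * b ≠ 0) :
    ∃ σ : SP, m11 σ = a ∧ m21 σ = a' ∧ m12 σ = b ∧ m22 σ = b' := by
  rcases mul_eq_zero.1 h1 with ha | ha'
  · subst ha
    have h6 : a' ^ 2 = 1 := by linarith
    have h7 : b' = 0 := by
      rcases mul_eq_zero.1 h2 with h | h
      · rw [h] at h5
        simp at h5
      · exact h
    subst h7
    have h8 : b ^ 2 = 1 := by linarith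
    obtain ⟨s, hs⟩ := exists_sg h6
    obtain ⟨t, ht⟩ := exists_sg h8
    exact ⟨(true, s, t), by simp [m11, m12, m21, m22, hs, ht]⟩
  · subst ha'
    have h6 : a ^ 2 = 1 := by linarith
    have h7 : b = 0 := by
      rcases mul_eq_zero.1 h2 with h | h
      · exact h
      · rw [h] at h5
        simp at h5
    subst h7
    have h8 : b' ^ 2 = 1 := by linarith
    obtain ⟨s, hs⟩ := exists_sg h6
    obtain ⟨t, ht⟩ := exists_sg h8
    exact ⟨(false, s, t), by simp [m11, m12, m21, m22, hs, ht]⟩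

end Pool.Agent.R278.LS
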