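import Pool.Agent.R278.LS.Final

/-!
# A characterization of the space up to isometry
-/

open Set Filter Topology

namespace Pool.Agent.R278.LS

theorem exists_del : ∃ del : ℕ → ℝ, (∀ m, 0 < del m) ∧ (∀ m, del m ≤ (1 / 2) ^ m) ∧
    Antitone del ∧ ∀ m, ∀ κ : XX →ₗ[ℝ] XX,
      (∀ x ∈ FF m, (1 + del m)⁻¹ * ‖x‖ ≤ ‖κ x‖ ∧ ‖κ x‖ ≤ (1 + del m) * ‖x‖) →
      ∃ σ : ℕ → SP, ∀ x ∈ FF m, ‖κ x - act σ x‖ ≤ (1 / 2) ^ m * ‖x‖ := by
  have h : ∀ m : ℕ, ∃ δ : ℝ, 0 < δ ∧ ∀ κ : XX →ₗ[ℝ] XX,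
      (∀ x ∈ FF m, (1 + δ)⁻¹ * ‖x‖ ≤ ‖κ x‖ ∧ ‖κ x‖ ≤ (1 + δ) * ‖x‖) →
      ∃ σ : ℕ → SP, ∀ x ∈ FF m, ‖κ x - act σ x‖ ≤ (1 / 2) ^ m * ‖x‖ := fun m =>
    rigid m (by positivity)
  choose d hd0 hd using h
  let del : ℕ → ℝ := fun m => Nat.rec (min (d 0) 1)
    (fun n r => min r (min (d (n + 1)) ((1 / 2) ^ (n + 1)))) m
  have hs : ∀ n, del (n + 1) = min (del n) (min (d (n + 1)) ((1 / 2) ^ (n + 1))) := fun _ => rfl
  have hz : del 0 = min (d 0) 1 := rfl
  have hpos : ∀ m, 0 < del m := by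
    intro m
    induction m with
    | zero =>
      rw [hz]
      exact lt_min (hd0 0) one_pos
    | succ n ih =>
      rw [hs]
      exact lt_min ih (lt_min (hd0 _) (by positivity))
  have hled : ∀ m, del m ≤ d m := by
    intro m
    cases m with
    | zero =>
      rw [hz]
      exact min_le_left _ _
    | succ n =>
      rw [hs]
      exact (min_le_right _ _).trans (min_le_left _ _)
  refine ⟨del, hpos, ?_, ?_, ?_⟩
  · intro m
    cases m with
    | zero =>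
      rw [hz]
      simp
    | succ n =>
      rw [hs]
      exact (min_le_right _ _).trans (min_le_right _ _)
  · apply antitone_nat_of_succ_le
    intro n
    rw [hs]
    exact min_le_left _ _
  · intro m κ hκ
    apply hd m κ
    intro x hx
    obtain ⟨h1, h2⟩ := hκ x hx
    constructor
    · refine le_trans (mul_le_mul_of_nonneg_right ?_ (norm_nonneg _)) h1
      apply inv_anti₀ (by linarith [hpos m])
      linarith [hled m]
    · exact h2.trans (mul_le_mul_of_nonneg_right (by linarith [hled m]) (norm_nonneg _))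

/-- The thresholds. -/
noncomputable def del : ℕ → ℝ := exists_del.choose

theorem del_pos (m : ℕ) : 0 < del m := exists_del.choose_spec.1 m
theorem del_le (m : ℕ) : del m ≤ (1 / 2) ^ m := exists_del.choose_spec.2.1 m
theorem del_anti : Antitone del := exists_del.choose_spec.2.2.1
theorem del_rigid (m : ℕ) (κ : XX →ₗ[ℝ] XX)
    (h : ∀ x ∈ FF m, (1 + del m)⁻¹ * ‖x‖ ≤ ‖κ x‖ ∧ ‖κ x‖ ≤ (1 + del m) * ‖x‖) :
    ∃ σ : ℕ → SP, ∀ x ∈ FF m, ‖κ x - act σ x‖ ≤ (1 / 2) ^ m * ‖x‖ :=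
  exists_del.choose_spec.2.2.2 m κ h

theorem del_le_one (m : ℕ) : del m ≤ 1 := (del_le m).trans (pow_le_one₀ (by norm_num) (by norm_num))

/-- `j` is a good embedding of the first `m` blocks. -/
def Good {Y : Type*} [NormedAddCommGroup Y] [NormedSpace ℝ Y] (m : ℕ) (j : XX →ₗ[ℝ] Y) : Prop :=
  ∀ x ∈ FF m, (1 + del m / 8)⁻¹ * ‖x‖ ≤ ‖j x‖ ∧ ‖j x‖ ≤ (1 + del m / 8) * ‖x‖

theorem FF_mono {m n : ℕ} (h : m ≤ n) : FF m ≤ FF n := by
  intro x hx
  rw [mem_FF] at hx ⊢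
  rw [← hx]
  apply lp.ext
  funext i
  rw [tr_apply, tr_apply]
  by_cases h2 : i < m
  · rw [if_pos h2, if_pos (by omega)]
  · rw [if_neg h2]
    simp

theorem tr_act (σ : ℕ → SP) (m : ℕ) (x : XX) : tr m (act σ x) = act σ (tr m x) := by
  apply lp.ext
  funext n
  rw [act_apply, tr_apply, tr_apply, act_apply]
  by_cases h : n < m
  · rw [if_pos h, if_pos h]
  · rw [if_neg h, if_neg h, map_zero]

theorem act_mem_FF (σ : ℕ → SP) {m : ℕ} {x : XX} (h : x ∈ FF m) : act σ x ∈ FF m := by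
  rw [mem_FF] at h ⊢
  rw [tr_act, h]

/-- The linear map with given values on the basis vectors of the first `m` blocks. -/
noncomputable def lmap {Y : Type*} [AddCommGroup Y] [Module ℝ Y] (m : ℕ) (v w : ℕ → Y) :
    XX →ₗ[ℝ] Y :=
  ∑ k ∈ Finset.range m, ((ca k).smulRight (v k) + (cb k).smulRight (w k))

theorem lmap_apply {Y : Type*} [AddCommGroup Y] [Module ℝ Y] (m : ℕ) (v w : ℕ → Y) (x : XX) :
    lmap m v w x = ∑ k ∈ Finset.range m, (ca k x • v k + cb k x • w k) := by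
  unfold lmap
  rw [LinearMap.sum_apply]
  rfl

theorem apply_eq_sum {Y : Type*} [AddCommGroup Y] [Module ℝ Y] (j : XX →ₗ[ℝ] Y) {m : ℕ} {x : XX}
    (hx : x ∈ FF m) : j x = ∑ k ∈ Finset.range m, (ca k x • j (ve k) + cb k x • j (vf k)) := by
  conv_lhs => rw [← mem_FF.1 hx, tr_eq_comb, map_sum]
  apply Finset.sum_congr rfl
  intro k _
  rw [map_add, map_smul, map_smul]

/-- Closeness on basis vectors gives closeness. -/
theorem close_of_basis {Y : Type*} [NormedAddCommGroup Y] [NormedSpace ℝ Y]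
    (j : XX →ₗ[ℝ] Y) (m : ℕ) (v w : ℕ → Y) {η : ℝ} (hη : 0 ≤ η)
    (hv : ∀ k < m, ‖j (ve k) - v k‖ ≤ η) (hw : ∀ k < m, ‖j (vf k) - w k‖ ≤ η)
    {x : XX} (hx : x ∈ FF m) : ‖j x - lmap m v w x‖ ≤ 2 * m * η * ‖x‖ := by
  rw [apply_eq_sum j hx, lmap_apply, ← Finset.sum_sub_distrib]
  calc ‖∑ k ∈ Finset.range m, (ca k x • j (ve k) + cb k x • j (vf k)
        - (ca k x • v k + cb k x • w k))‖
      ≤ ∑ k ∈ Finset.range m, ‖ca k x • j (ve k) + cb k x • j (vf k)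
        - (ca k x • v k + cb k x • w k)‖ := norm_sum_le _ _
    _ ≤ ∑ k ∈ Finset.range m, (‖x‖ * η + ‖x‖ * η) := by
        apply Finset.sum_le_sum
        intro k hk
        have hk' := Finset.mem_range.1 hk
        have e1 : ca k x • j (ve k) + cb k x • j (vf k) - (ca k x • v k + cb k x • w k)
            = ca k x • (j (ve k) - v k) + cb k x • (j (vf k) - w k) := by module
        rw [e1]
        refine (norm_add_le _ _).trans (add_le_add ?_ ?_)
        · rw [norm_smul]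
          exact mul_le_mul (abs_ca_le x k) (hv k hk') (norm_nonneg _) (norm_nonneg _)
        · rw [norm_smul]
          exact mul_le_mul (abs_cb_le x k) (hw k hk') (norm_nonneg _) (norm_nonneg _)
    _ = 2 * m * η * ‖x‖ := by
        rw [Finset.sum_const, Finset.card_range, nsmul_eq_mul]
        ring

section

variable {Y : Type*} [NormedAddCommGroup Y] [NormedSpace ℝ Y]

/-- The approximation property characterizing the space. -/
def Approx (Y : Type*) [NormedAddCommGroup Y] [NormedSpace ℝ Y] : Prop :=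
  ∀ (A : Set Y), A.Finite → ∀ ε : ℝ, 0 < ε → ∀ M : ℕ, ∃ m, M ≤ m ∧ ∃ j : XX →ₗ[ℝ] Y, Good m j ∧
    ∀ a ∈ A, ∃ w ∈ FF m, ‖a - j w‖ < ε

theorem Good.norm_le_two {m : ℕ} {j : XX →ₗ[ℝ] Y} (h : Good m j) {x : XX} (hx : x ∈ FF m) :
    ‖j x‖ ≤ 2 * ‖x‖ :=
  (h x hx).2.trans (mul_le_mul_of_nonneg_right (by linarith [del_le_one m]) (norm_nonneg _))

theorem Good.le_two {m : ℕ} {j : XX →ₗ[ℝ] Y} (h : Good m j) {x : XX} (hx : x ∈ FF m) :
    ‖x‖ ≤ 2 * ‖j x‖ := by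
  have h1 := (h x hx).1
  have h2 := del_pos m
  have h3 := del_le_one m
  rw [inv_mul_le_iff₀ (by positivity)] at h1
  exact h1.trans (mul_le_mul_of_nonneg_right (by linarith) (norm_nonneg _))

/-- The step of the construction. -/
theorem step_lemma (hY : Approx Y) (d : ℕ → Y) (k m : ℕ) (j : XX →ₗ[ℝ] Y) (hj : Good m j) :
    ∃ (m' : ℕ) (j' : XX →ₗ[ℝ] Y) (σ : ℕ → SP), m < m' ∧ Good m' j' ∧
      (∀ x ∈ FF m, ‖j x - j' (act σ x)‖ ≤ 3 * (1 / 2) ^ m * ‖x‖) ∧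
      ∀ l ≤ k, ∃ w ∈ FF m', ‖d l - j' w‖ < (1 / 2) ^ k := by
  classical
  set t := del m / 8 with ht
  have hdm := del_pos m
  have hdm1 := del_le_one m
  let η : ℝ := t / (2 * m + 1)
  have hη : 0 < η := by positivity
  have hηt : 2 * m * η ≤ t := by
    simp only [η]
    rw [mul_div_assoc', div_le_iff₀ (by positivity)]
    nlinarith [show (0 : ℝ) ≤ m from Nat.cast_nonneg m]
  let A : Set Y := ((fun i => j (ve i)) '' Set.Iio m) ∪ ((fun i => j (vf i)) '' Set.Iio m) ∪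
    (d '' Set.Iic k)
  have hA : A.Finite := (((Set.finite_Iio m).image _).union ((Set.finite_Iio m).image _)).union
    ((Set.finite_Iic k).image _)
  obtain ⟨m', hm', j', hj', happ⟩ := hY A hA (min η ((1 / 2) ^ k)) (lt_min hη (by positivity))
    (m + 1)
  have hve : ∀ i, ∃ w ∈ FF m', i < m → ‖j (ve i) - j' w‖ ≤ η := by
    intro i
    by_cases hi : i < m
    · obtain ⟨w, hw, hw2⟩ := happ (j (ve i)) (Or.inl (Or.inl ⟨i, hi, rfl⟩))
      exact ⟨w, hw, fun _ => hw2.le.trans (min_le_left _ _)⟩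
    · exact ⟨0, Submodule.zero_mem _, fun h => absurd h hi⟩
  have hvf : ∀ i, ∃ w ∈ FF m', i < m → ‖j (vf i) - j' w‖ ≤ η := by
    intro i
    by_cases hi : i < m
    · obtain ⟨w, hw, hw2⟩ := happ (j (vf i)) (Or.inl (Or.inr ⟨i, hi, rfl⟩))
      exact ⟨w, hw, fun _ => hw2.le.trans (min_le_left _ _)⟩
    · exact ⟨0, Submodule.zero_mem _, fun h => absurd h hi⟩
  choose v hv1 hv2 using hve
  choose w hw1 hw2 using hvf
  let κ : XX →ₗ[ℝ] XX := lmap m v w
  have hκm : ∀ x, κ x ∈ FF m' := by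
    intro x
    change lmap m v w x ∈ _
    rw [lmap_apply]
    apply Submodule.sum_mem
    intro i _
    exact Submodule.add_mem _ (Submodule.smul_mem _ _ (hv1 i)) (Submodule.smul_mem _ _ (hw1 i))
  have hjκ : ∀ x, j' (κ x) = lmap m (fun i => j' (v i)) (fun i => j' (w i)) x := by
    intro x
    change j' (lmap m v w x) = _
    rw [lmap_apply, lmap_apply, map_sum]
    apply Finset.sum_congr rfl
    intro i _
    rw [map_add, map_smul, map_smul]
  have hclose : ∀ x ∈ FF m, ‖j x - j' (κ x)‖ ≤ t * ‖x‖ := by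
    intro x hx
    rw [hjκ]
    refine (close_of_basis j m _ _ hη.le (fun i hi => hv2 i hi) (fun i hi => hw2 i hi) hx).trans ?_
    exact mul_le_mul_of_nonneg_right hηt (norm_nonneg _)
  have ht' : del m' / 8 ≤ t := by
    rw [ht]
    linarith [del_anti (show m ≤ m' by omega)]
  have ht0 : 0 < t := by positivity
  have ht1 : t ≤ 1 / 8 := by
    rw [ht]
    linarith
  have hdm' := del_pos m'
  have hκ : ∀ x ∈ FF m, (1 + del m)⁻¹ * ‖x‖ ≤ ‖κ x‖ ∧ ‖κ x‖ ≤ (1 + del m) * ‖x‖ := by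
    intro x hx
    have h1 := hj' (κ x) (hκm x)
    have h2 := hclose x hx
    have h3 := hj x hx
    have h4 : ‖j' (κ x)‖ ≤ ‖j x‖ + t * ‖x‖ := by
      have : ‖j' (κ x)‖ ≤ ‖j x‖ + ‖j x - j' (κ x)‖ := by
        calc ‖j' (κ x)‖ = ‖j x - (j x - j' (κ x))‖ := by rw [sub_sub_cancel]
          _ ≤ _ := norm_sub_le _ _
      linarith
    have h5 : ‖j x‖ ≤ ‖j' (κ x)‖ + t * ‖x‖ := by
      have : ‖j x‖ ≤ ‖j' (κ x)‖ + ‖j x - j' (κ x)‖ := by
        calc ‖j x‖ = ‖j' (κ x) + (j x - j' (κ x))‖ := by rw [add_sub_cancel]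
          _ ≤ _ := norm_add_le _ _
      linarith
    have hx0 : 0 ≤ ‖x‖ := norm_nonneg x
    have hdel : del m = 8 * t := by
      rw [ht]
      ring
    constructor
    · -- lower bound
      have h6 : ‖j' (κ x)‖ ≤ (1 + t) * ‖κ x‖ := h1.2.trans
        (mul_le_mul_of_nonneg_right (by linarith) (norm_nonneg _))
      have h7 : ‖x‖ ≤ (1 + t) * ‖j x‖ := by
        have := h3.1
        rwa [inv_mul_le_iff₀ (by positivity)] at this
      rw [inv_mul_le_iff₀ (by positivity), hdel]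
      have h8 : (1 - t - t ^ 2) * ‖x‖ ≤ (1 + t) ^ 2 * ‖κ x‖ := by
        have h9 : ‖x‖ ≤ (1 + t) * (‖j' (κ x)‖ + t * ‖x‖) :=
          h7.trans (mul_le_mul_of_nonneg_left h5 (by positivity))
        have h10 : (1 + t) * ‖j' (κ x)‖ ≤ (1 + t) * ((1 + t) * ‖κ x‖) :=
          mul_le_mul_of_nonneg_left h6 (by positivity)
        nlinarith
      have h9 : (1 + t) ^ 2 ≤ (1 + 8 * t) * (1 - t - t ^ 2) := by
        nlinarith [mul_pos ht0 ht0, mul_pos ht0 (mul_pos ht0 ht0)]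
      have h10 : 0 < 1 - t - t ^ 2 := by nlinarith
      have h11 : (1 - t - t ^ 2) * ‖x‖ ≤ (1 - t - t ^ 2) * ((1 + 8 * t) * ‖κ x‖) := by
        calc (1 - t - t ^ 2) * ‖x‖ ≤ (1 + t) ^ 2 * ‖κ x‖ := h8
          _ ≤ ((1 + 8 * t) * (1 - t - t ^ 2)) * ‖κ x‖ :=
              mul_le_mul_of_nonneg_right h9 (norm_nonneg _)
          _ = (1 - t - t ^ 2) * ((1 + 8 * t) * ‖κ x‖) := by ring
      exact le_of_mul_le_mul_left h11 h10
    · have h6 : ‖κ x‖ ≤ (1 + t) * ‖j' (κ x)‖ := by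
        have h7 := h1.1
        rw [inv_mul_le_iff₀ (by positivity)] at h7
        exact h7.trans (mul_le_mul_of_nonneg_right (by linarith) (norm_nonneg _))
      have h7 : ‖κ x‖ ≤ (1 + t) * (((1 + t) * ‖x‖) + t * ‖x‖) := by
        refine h6.trans (mul_le_mul_of_nonneg_left ?_ (by positivity))
        have := h3.2
        rw [← ht] at this
        linarith
      refine h7.trans ?_
      rw [hdel]
      have h8 : (1 + t) * (1 + 2 * t) ≤ 1 + 8 * t := by nlinarith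
      calc (1 + t) * (((1 + t) * ‖x‖) + t * ‖x‖) = ((1 + t) * (1 + 2 * t)) * ‖x‖ := by ring
        _ ≤ (1 + 8 * t) * ‖x‖ := mul_le_mul_of_nonneg_right h8 hx0
  obtain ⟨σ, hσ⟩ := del_rigid m κ hκ
  refine ⟨m', j', σ, by omega, hj', ?_, ?_⟩
  · intro x hx
    have h1 := hclose x hx
    have h2 : ‖j' (κ x - act σ x)‖ ≤ 2 * ‖κ x - act σ x‖ :=
      hj'.norm_le_two (Submodule.sub_mem _ (hκm x)
        (act_mem_FF σ (FF_mono (show m ≤ m' by omega) hx)))
    have h3 := hσ x hx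
    have h4 : t ≤ (1 / 2) ^ m := by
      rw [ht]
      linarith [del_le m, del_pos m]
    have h5 : t * ‖x‖ ≤ (1 / 2) ^ m * ‖x‖ := mul_le_mul_of_nonneg_right h4 (norm_nonneg _)
    calc ‖j x - j' (act σ x)‖ = ‖(j x - j' (κ x)) + j' (κ x - act σ x)‖ := by
          rw [map_sub]
          congr 1
          abel
      _ ≤ ‖j x - j' (κ x)‖ + ‖j' (κ x - act σ x)‖ := norm_add_le _ _
      _ ≤ (1 / 2) ^ m * ‖x‖ + 2 * ((1 / 2) ^ m * ‖x‖) := by linarith
      _ = 3 * (1 / 2) ^ m * ‖x‖ := by ring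
  · intro l hl
    obtain ⟨u, hu, hu2⟩ := happ (d l) (Or.inr ⟨l, hl, rfl⟩)
    exact ⟨u, hu, hu2.trans_le (min_le_right _ _)⟩

end

end Pool.Agent.R278.LS
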