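import Pool.Agent.R278.LS.Iso
import Pool.Agent.H418R3.GurDefs

/-!
# The isometry class is a G-delta set
-/

open Set Filter Topology

namespace Pool.Agent.R278.LS

open Pool.Agent.H418R3.Gur (PN Sp Fs rat)

/-- Finitely many values control a seminorm on the first `m` blocks. -/
theorem net_lemma (m : ℕ) {δ : ℝ} (hδ : 0 < δ) : ∃ (N : Set XX) (η : ℝ), N.Finite ∧
    (∀ x ∈ N, x ∈ FF m) ∧ 0 < η ∧ ∀ p : Seminorm ℝ XX, (∀ x ∈ N, |p x - ‖x‖| < η) →
      ∀ x ∈ FF m, (1 + δ)⁻¹ * ‖x‖ ≤ p x ∧ p x ≤ (1 + δ) * ‖x‖ := by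
  set τ : ℝ := δ / (1 + δ) with hτ
  have hτ0 : 0 < τ := by positivity
  have hτ1 : 1 - τ = (1 + δ)⁻¹ := by
    rw [hτ]
    field_simp
    ring
  have hτδ : τ ≤ δ := by
    rw [hτ, div_le_iff₀ (by positivity)]
    nlinarith
  let C : ℝ := 4 * m + 1
  have hC : 0 < C := by positivity
  let θ : ℝ := τ / (2 * (C + 1))
  have hθ : 0 < θ := by positivity
  have : ProperSpace (FF m) := FiniteDimensional.proper_real (FF m)
  obtain ⟨t, hts, htf, hcov⟩ := (isCompact_sphere (0 : FF m) 1).finite_cover_balls hθ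
  refine ⟨(ve '' Set.Iio m ∪ vf '' Set.Iio m) ∪ (fun y : FF m => (y : XX)) '' t,
    min 1 (τ / 4), ((((Set.finite_Iio m).image _).union ((Set.finite_Iio m).image _)).union
      (htf.image _)), ?_, lt_min one_pos (by positivity), ?_⟩
  · rintro _ ((⟨k, hk, rfl⟩ | ⟨k, hk, rfl⟩) | ⟨y, -, rfl⟩)
    · exact mem_FF.2 (tr_pt_of_lt hk _ _)
    · exact mem_FF.2 (tr_pt_of_lt hk _ _)
    · exact y.2
  intro p hp
  have hbound : ∀ x ∈ FF m, p x ≤ C * ‖x‖ := by
    intro x hx
    have h1 : ∀ k < m, p (ve k) ≤ 2 := by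
      intro k hk
      have h2 := (abs_lt.1 ((hp (ve k) (Or.inl (Or.inl ⟨k, hk, rfl⟩))).trans_le
        (min_le_left _ _))).2
      rw [norm_ve] at h2
      linarith
    have hvf : ∀ k, ‖vf k‖ = 1 := by
      intro k
      have : ‖vf k‖ ^ 2 = 1 := by
        rw [vf, norm_pt_sq]
        simp [gg]
      nlinarith [norm_nonneg (vf k)]
    have h1' : ∀ k < m, p (vf k) ≤ 2 := by
      intro k hk
      have h2 := (abs_lt.1 ((hp (vf k) (Or.inl (Or.inr ⟨k, hk, rfl⟩))).trans_le
        (min_le_left _ _))).2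
      rw [hvf] at h2
      linarith
    have h3 : x = ∑ k ∈ Finset.range m, (ca k x • ve k + cb k x • vf k) := by
      rw [← tr_eq_comb, mem_FF.1 hx]
    calc p x = p (∑ k ∈ Finset.range m, (ca k x • ve k + cb k x • vf k)) := by rw [← h3]
      _ ≤ ∑ k ∈ Finset.range m, p (ca k x • ve k + cb k x • vf k) :=
          Finset.le_sum_of_subadditive p (map_zero p).le (map_add_le_add p) _ _
      _ ≤ ∑ k ∈ Finset.range m, (‖x‖ * 2 + ‖x‖ * 2) := by
          apply Finset.sum_le_sum
          intro k hk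
          have hk' := Finset.mem_range.1 hk
          refine (map_add_le_add p _ _).trans (add_le_add ?_ ?_)
          · rw [map_smul_eq_mul]
            exact mul_le_mul (abs_ca_le x k) (h1 k hk') (apply_nonneg p _) (norm_nonneg _)
          · rw [map_smul_eq_mul]
            exact mul_le_mul (abs_cb_le x k) (h1' k hk') (apply_nonneg p _) (norm_nonneg _)
      _ = 4 * m * ‖x‖ := by
          rw [Finset.sum_const, Finset.card_range, nsmul_eq_mul]
          ring
      _ ≤ C * ‖x‖ := mul_le_mul_of_nonneg_right (by simp only [C]; linarith) (norm_nonneg _)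
  have hsph : ∀ x ∈ FF m, ‖x‖ = 1 → |p x - 1| ≤ τ := by
    intro x hx hx1
    have h1 : (⟨x, hx⟩ : FF m) ∈ Metric.sphere (0 : FF m) 1 := by
      rw [mem_sphere_zero_iff_norm]
      exact hx1
    have h2 := hcov h1
    simp only [Set.mem_iUnion, Metric.mem_ball] at h2
    obtain ⟨y, hy, hd⟩ := h2
    have hy1 : ‖(y : XX)‖ = 1 := by
      have := hts hy
      rw [mem_sphere_zero_iff_norm] at this
      exact this
    have h3 := hp (y : XX) (Or.inr ⟨y, hy, rfl⟩)
    rw [hy1] at h3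
    have h4 : |p x - p (y : XX)| ≤ p (x - y) := abs_sub_map_le_sub p x y
    have h5 : p (x - y) ≤ C * ‖x - (y : XX)‖ := hbound _ (Submodule.sub_mem _ hx y.2)
    have h6 : ‖x - (y : XX)‖ < θ := by
      rw [dist_eq_norm] at hd
      exact hd
    have h7 : C * ‖x - (y : XX)‖ ≤ τ / 2 := by
      have h8 : C * ‖x - (y : XX)‖ ≤ C * θ := mul_le_mul_of_nonneg_left h6.le hC.le
      have h9 : C * θ ≤ τ / 2 := by
        simp only [θ]
        rw [mul_div_assoc', div_le_iff₀ (by positivity)]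
        nlinarith
      exact h8.trans h9
    have h8 : |p (y : XX) - 1| ≤ τ / 4 := h3.le.trans (min_le_right _ _)
    calc |p x - 1| = |(p x - p (y : XX)) + (p (y : XX) - 1)| := by
          rw [sub_add_sub_cancel]
      _ ≤ |p x - p (y : XX)| + |p (y : XX) - 1| := abs_add_le _ _
      _ ≤ τ / 2 + τ / 4 := add_le_add ((h4.trans h5).trans h7) h8
      _ ≤ τ := by linarith
  intro x hx
  by_cases hx0 : x = 0
  · subst hx0
    simp
  have hxn : 0 < ‖x‖ := norm_pos_iff.2 hx0
  have h1 := hsph (‖x‖⁻¹ • x) (Submodule.smul_mem _ _ hx) (by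
    rw [norm_smul, norm_inv, norm_norm, inv_mul_cancel₀ hxn.ne'])
  rw [map_smul_eq_mul, norm_inv, norm_norm] at h1
  have h2 := abs_le.1 h1
  have e1 : ‖x‖⁻¹ * p x * ‖x‖ = p x := by field_simp
  constructor
  · rw [← hτ1]
    have h3 : (1 - τ) * ‖x‖ ≤ (‖x‖⁻¹ * p x) * ‖x‖ :=
      mul_le_mul_of_nonneg_right (by linarith [h2.1]) hxn.le
    rwa [e1] at h3
  · have h3 : (‖x‖⁻¹ * p x) * ‖x‖ ≤ (1 + δ) * ‖x‖ :=
      mul_le_mul_of_nonneg_right (by linarith [h2.2]) hxn.le
    rwa [e1] at h3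

/-- Evaluation at a real vector is continuous on the space of pseudonorms. -/
theorem continuous_eval (x : ℕ →₀ ℝ) : Continuous (fun μ : PN => μ x) := by
  have hrat : ∀ v : ℕ →₀ ℚ, Continuous (fun μ : PN => μ (rat v)) := by
    intro v
    have h : Continuous (fun (μ : PN) (v : ℕ →₀ ℚ) => μ (rat v)) := continuous_induced_dom
    exact (continuous_pi_iff.1 h) v
  have hsingle : ∀ k : ℕ, Continuous (fun μ : PN => μ (Finsupp.single k (1 : ℝ))) := by
    intro k
    have h1 := hrat (Finsupp.single k 1)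
    have h2 : rat (Finsupp.single k 1) = Finsupp.single k (1 : ℝ) := by
      unfold rat
      rw [Finsupp.mapRange_single]
      norm_num
    rw [h2] at h1
    exact h1
  rw [continuous_iff_continuousAt]
  intro μ₀
  rw [ContinuousAt, Metric.tendsto_nhds]
  intro ε hε
  -- approximate `x` by a rational vector
  let S : ℝ := ∑ k ∈ x.support, (μ₀ (Finsupp.single k (1 : ℝ)) + 1)
  have hS : 0 ≤ S := Finset.sum_nonneg (fun k _ => by
    have := apply_nonneg μ₀ (Finsupp.single k (1 : ℝ))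
    linarith)
  have hq : ∀ k : ℕ, ∃ q : ℚ, |x k - q| ≤ ε / (4 * (S + 1)) := by
    intro k
    obtain ⟨q, h1, h2⟩ := exists_rat_btwn (show x k < x k + ε / (4 * (S + 1)) by
      have : 0 < ε / (4 * (S + 1)) := by positivity
      linarith)
    refine ⟨q, ?_⟩
    rw [abs_le]
    constructor <;> linarith
  choose q hq using hq
  let v : ℕ →₀ ℚ := ∑ k ∈ x.support, Finsupp.single k (q k)
  have hv : x - rat v = ∑ k ∈ x.support, (x k - q k) • Finsupp.single k (1 : ℝ) := by
    ext i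
    rw [Finsupp.sub_apply, Finsupp.finsetSum_apply]
    have e1 : (rat v) i = ((v i : ℚ) : ℝ) := rfl
    rw [e1, Finsupp.finsetSum_apply]
    by_cases hi : i ∈ x.support
    · rw [Finset.sum_eq_single i, Finset.sum_eq_single i]
      · simp
      · intro j _ hj
        simp [hj]
      · intro h
        exact absurd hi h
      · intro j _ hj
        simp [hj]
      · intro h
        exact absurd hi h
    · rw [Finset.sum_eq_zero, Finset.sum_eq_zero]
      · rw [Finsupp.notMem_support_iff.1 hi]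
        simp
      · intro j hj
        have : j ≠ i := by
          rintro rfl
          exact hi hj
        simp [this]
      · intro j hj
        have : j ≠ i := by
          rintro rfl
          exact hi hj
        simp [this]
  have hsmall : ∀ μ : PN, (∀ k ∈ x.support, μ (Finsupp.single k (1 : ℝ)) ≤
      μ₀ (Finsupp.single k (1 : ℝ)) + 1) → μ (x - rat v) ≤ ε / 4 := by
    intro μ hμ
    rw [hv]
    calc μ (∑ k ∈ x.support, (x k - q k) • Finsupp.single k (1 : ℝ))
        ≤ ∑ k ∈ x.support, μ ((x k - q k) • Finsupp.single k (1 : ℝ)) :=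
          Finset.le_sum_of_subadditive μ (map_zero μ).le (map_add_le_add μ) _ _
      _ ≤ ∑ k ∈ x.support, ε / (4 * (S + 1)) * (μ₀ (Finsupp.single k (1 : ℝ)) + 1) := by
          apply Finset.sum_le_sum
          intro k hk
          rw [map_smul_eq_mul]
          exact mul_le_mul (hq k) (hμ k hk) (apply_nonneg _ _) (by positivity)
      _ = ε / (4 * (S + 1)) * S := by rw [← Finset.mul_sum]
      _ ≤ ε / 4 := by
          rw [div_mul_eq_mul_div, div_le_div_iff₀ (by positivity) (by norm_num)]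
          nlinarith
  have h1 : ∀ᶠ μ in 𝓝 μ₀, ∀ k ∈ x.support, μ (Finsupp.single k (1 : ℝ)) ≤
      μ₀ (Finsupp.single k (1 : ℝ)) + 1 := by
    rw [Filter.eventually_all_finset]
    intro k _
    exact ((hsingle k).tendsto μ₀).eventually_le_const (by linarith)
  have h2 : ∀ᶠ μ in 𝓝 μ₀, |μ (rat v) - μ₀ (rat v)| < ε / 4 := by
    have := Metric.tendsto_nhds.1 ((hrat v).tendsto μ₀) (ε / 4) (by positivity)
    exact this
  filter_upwards [h1, h2] with μ hμ1 hμ2
  have h3 := hsmall μ hμ1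
  have h4 := hsmall μ₀ (fun k _ => by linarith)
  have h5 : |μ x - μ (rat v)| ≤ μ (x - rat v) := abs_sub_map_le_sub μ _ _
  have h6 : |μ₀ x - μ₀ (rat v)| ≤ μ₀ (x - rat v) := abs_sub_map_le_sub μ₀ _ _
  rw [Real.dist_eq]
  have h7 := abs_le.1 (h5.trans h3)
  have h8 := abs_le.1 (h6.trans h4)
  have h9 := abs_lt.1 hμ2
  rw [abs_lt]
  constructor <;> linarith [h7.1, h7.2, h8.1, h8.2, h9.1, h9.2]

/-- Control sets of the good embeddings. -/
noncomputable def netN (m : ℕ) : Set XX := (net_lemma m (show 0 < del m / 8 by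
  have := del_pos m
  positivity)).choose

/-- Control errors of the good embeddings. -/
noncomputable def netE (m : ℕ) : ℝ := (net_lemma m (show 0 < del m / 8 by
  have := del_pos m
  positivity)).choose_spec.choose

theorem netN_finite (m : ℕ) : (netN m).Finite := (net_lemma m (show 0 < del m / 8 by
  have := del_pos m
  positivity)).choose_spec.choose_spec.1

theorem netN_mem (m : ℕ) : ∀ x ∈ netN m, x ∈ FF m := (net_lemma m (show 0 < del m / 8 by
  have := del_pos m
  positivity)).choose_spec.choose_spec.2.1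

theorem netE_pos (m : ℕ) : 0 < netE m := (net_lemma m (show 0 < del m / 8 by
  have := del_pos m
  positivity)).choose_spec.choose_spec.2.2.1

theorem net_good (m : ℕ) (p : Seminorm ℝ XX) (h : ∀ x ∈ netN m, |p x - ‖x‖| < netE m) :
    ∀ x ∈ FF m, (1 + del m / 8)⁻¹ * ‖x‖ ≤ p x ∧ p x ≤ (1 + del m / 8) * ‖x‖ :=
  (net_lemma m (show 0 < del m / 8 by
  have := del_pos m
  positivity)).choose_spec.choose_spec.2.2.2 p h

/-- The basic open sets. -/
def OO (n m : ℕ) (v w : ℕ → (ℕ →₀ ℝ)) (u : ℕ → XX) : Set PN :=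
  {μ | (∀ x ∈ netN m, |μ (lmap m v w x) - ‖x‖| < netE m) ∧
    ∀ l < n, μ (Finsupp.single l 1 - lmap m v w (tr m (u l))) < (1 / 2) ^ n}

theorem isOpen_OO (n m : ℕ) (v w : ℕ → (ℕ →₀ ℝ)) (u : ℕ → XX) : IsOpen (OO n m v w u) := by
  have h1 : OO n m v w u = (⋂ x ∈ netN m, {μ : PN | |μ (lmap m v w x) - ‖x‖| < netE m}) ∩
      ⋂ l ∈ Set.Iio n, {μ : PN | μ (Finsupp.single l 1 - lmap m v w (tr m (u l))) < (1 / 2) ^ n} := by
    ext μ
    simp only [OO, Set.mem_inter_iff, Set.mem_iInter, Set.mem_ofPred_eq, Set.mem_Iio]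
  rw [h1]
  apply IsOpen.inter
  · apply (netN_finite m).isOpen_biInter
    intro x _
    exact isOpen_lt ((continuous_eval _).sub continuous_const).abs continuous_const
  · apply (Set.finite_Iio n).isOpen_biInter
    intro l _
    exact isOpen_lt (continuous_eval _) continuous_const

/-- The G-delta set of codes. -/
def Phi : Set PN := ⋂ n : ℕ, ⋃ (m : ℕ) (_ : n ≤ m) (v : ℕ → (ℕ →₀ ℝ)) (w : ℕ → (ℕ →₀ ℝ))
  (u : ℕ → XX), OO n m v w u

theorem isGδ_Phi : IsGδ Phi := by
  apply IsGδ.iInter_of_isOpen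
  intro n
  apply isOpen_iUnion
  intro m
  apply isOpen_iUnion
  intro _
  apply isOpen_iUnion
  intro v
  apply isOpen_iUnion
  intro w
  apply isOpen_iUnion
  intro u
  exact isOpen_OO n m v w u

theorem mem_Phi {μ : PN} : μ ∈ Phi ↔ ∀ n : ℕ, ∃ m, n ≤ m ∧ ∃ (v w : ℕ → (ℕ →₀ ℝ)) (u : ℕ → XX),
    (∀ x ∈ netN m, |μ (lmap m v w x) - ‖x‖| < netE m) ∧
    ∀ l < n, μ (Finsupp.single l 1 - lmap m v w (tr m (u l))) < (1 / 2) ^ n := by
  simp only [Phi, OO, Set.mem_iInter, Set.mem_iUnion, Set.mem_ofPred_eq, exists_prop]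

/-- The canonical map into the completion. -/
noncomputable def io (μ : PN) : (ℕ →₀ ℝ) →ₗ[ℝ] Sp μ where
  toFun x := ((show Fs μ from x : Fs μ) : UniformSpace.Completion (Fs μ))
  map_add' x y := UniformSpace.Completion.coe_add (α := Fs μ) x y
  map_smul' c x := UniformSpace.Completion.coe_smul (X := Fs μ) c x

theorem norm_io (μ : PN) (x : ℕ →₀ ℝ) : ‖io μ x‖ = μ x :=
  UniformSpace.Completion.norm_coe (E := Fs μ) x

theorem dense_io (μ : PN) : DenseRange (io μ) :=
  UniformSpace.Completion.denseRange_coe (α := Fs μ)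

end Pool.Agent.R278.LS
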