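import Pool.Agent.R278.LS.Code

/-!
# The isometry class is a G-delta set, continued
-/

open Set Filter Topology

namespace Pool.Agent.R278.LS

open Pool.Agent.H418R3.Gur (PN Sp Fs rat)

theorem separable_Sp (μ : PN) : TopologicalSpace.SeparableSpace (Sp μ) := by
  rw [← TopologicalSpace.isSeparable_univ_iff]
  have h1 : TopologicalSpace.IsSeparable (Set.range (fun l : ℕ => io μ (Finsupp.single l 1))) :=
    (Set.countable_range _).isSeparable
  have h2 : TopologicalSpace.IsSeparable ((Submodule.span ℝ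
      (Set.range (fun l : ℕ => io μ (Finsupp.single l 1))) : Submodule ℝ (Sp μ)) :
        Set (Sp μ)) := h1.span
  refine h2.closure.mono ?_
  intro y _
  have h3 : Set.range (io μ) ⊆ ((Submodule.span ℝ
      (Set.range (fun l : ℕ => io μ (Finsupp.single l 1))) : Submodule ℝ (Sp μ)) :
        Set (Sp μ)) := by
    rintro _ ⟨x, rfl⟩
    have h4 : x = ∑ l ∈ x.support, x l • Finsupp.single l (1 : ℝ) := by
      conv_lhs => rw [← Finsupp.sum_single x]
      unfold Finsupp.sum
      apply Finset.sum_congr rfl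
      intro l _
      rw [Finsupp.smul_single, smul_eq_mul, mul_one]
    rw [h4, map_sum]
    apply Submodule.sum_mem
    intro l _
    rw [map_smul]
    exact Submodule.smul_mem _ _ (Submodule.subset_span ⟨l, rfl⟩)
  exact closure_mono h3 (dense_io μ y)

theorem io_lmap (μ : PN) (m : ℕ) (v w : ℕ → (ℕ →₀ ℝ)) (x : XX) :
    io μ (lmap m v w x) = lmap m (fun k => io μ (v k)) (fun k => io μ (w k)) x := by
  rw [lmap_apply, lmap_apply, map_sum]
  apply Finset.sum_congr rfl
  intro k _
  rw [map_add, map_smul, map_smul]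

/-- Codes in the G-delta set have the approximation property. -/
theorem approx_of_mem {μ : PN} (hμ : μ ∈ Phi) : Approx (Sp μ) := by
  intro A hA ε hε M
  have h1 : ∀ a : Sp μ, ∃ b : ℕ →₀ ℝ, ‖a - io μ b‖ < ε / 2 := by
    intro a
    obtain ⟨_, ⟨b, rfl⟩, hb⟩ := Metric.mem_closure_iff.1 (dense_io μ a) (ε / 2) (by positivity)
    exact ⟨b, by rwa [dist_eq_norm] at hb⟩
  choose b hb using h1
  have h2 : ∀ᶠ n : ℕ in atTop, M ≤ n ∧ ∀ a ∈ A, (∀ l ∈ (b a).support, l < n) ∧
      (1 / 2 : ℝ) ^ n * ∑ l ∈ (b a).support, |b a l| < ε / 2 := by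
    apply (eventually_ge_atTop M).and
    rw [Filter.eventually_all_finite hA]
    intro a _
    apply Filter.Eventually.and
    · rw [Filter.eventually_all_finset]
      intro l _
      exact eventually_gt_atTop l
    · have h3 : Tendsto (fun l : ℕ => (1 / 2 : ℝ) ^ l) atTop (𝓝 0) :=
        tendsto_pow_atTop_nhds_zero_of_lt_one (by norm_num) (by norm_num)
      have h4 := h3.mul_const (∑ l ∈ (b a).support, |b a l|)
      rw [zero_mul] at h4
      exact h4.eventually_lt_const (by positivity)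
  obtain ⟨n, hn1, hn2⟩ := h2.exists
  obtain ⟨m, hm, v, w, u, h3, h4⟩ := mem_Phi.1 hμ n
  have hgood := net_good m (μ.comp (lmap m v w)) h3
  refine ⟨m, hn1.trans hm, io μ ∘ₗ lmap m v w, ?_, ?_⟩
  · intro x hx
    have h5 := hgood x hx
    have h6 : ‖(io μ ∘ₗ lmap m v w) x‖ = μ (lmap m v w x) := norm_io μ _
    rw [h6]
    exact h5
  · intro a ha
    obtain ⟨h5, h6⟩ := hn2 a ha
    refine ⟨∑ l ∈ (b a).support, b a l • tr m (u l), ?_, ?_⟩
    · apply Submodule.sum_mem
      intro l _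
      exact Submodule.smul_mem _ _ (tr_mem_FF m (u l))
    · have h7 : b a = ∑ l ∈ (b a).support, b a l • Finsupp.single l (1 : ℝ) := by
        conv_lhs => rw [← Finsupp.sum_single (b a)]
        unfold Finsupp.sum
        apply Finset.sum_congr rfl
        intro l _
        rw [Finsupp.smul_single, smul_eq_mul, mul_one]
      have h8 : ‖io μ (b a) - (io μ ∘ₗ lmap m v w) (∑ l ∈ (b a).support, b a l • tr m (u l))‖
          ≤ (1 / 2 : ℝ) ^ n * ∑ l ∈ (b a).support, |b a l| := by
        rw [LinearMap.comp_apply, ← map_sub, norm_io]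
        have h9 : b a - lmap m v w (∑ l ∈ (b a).support, b a l • tr m (u l))
            = ∑ l ∈ (b a).support, b a l • (Finsupp.single l (1 : ℝ)
              - lmap m v w (tr m (u l))) := by
          conv_lhs =>
            lhs
            rw [h7]
          rw [map_sum, ← Finset.sum_sub_distrib]
          apply Finset.sum_congr rfl
          intro l _
          rw [map_smul, smul_sub]
        rw [h9]
        calc μ (∑ l ∈ (b a).support, b a l • (Finsupp.single l (1 : ℝ)
              - lmap m v w (tr m (u l))))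
            ≤ ∑ l ∈ (b a).support, μ (b a l • (Finsupp.single l (1 : ℝ)
              - lmap m v w (tr m (u l)))) :=
              Finset.le_sum_of_subadditive μ (map_zero μ).le (map_add_le_add μ) _ _
          _ ≤ ∑ l ∈ (b a).support, |b a l| * (1 / 2 : ℝ) ^ n := by
              apply Finset.sum_le_sum
              intro l hl
              rw [map_smul_eq_mul, Real.norm_eq_abs]
              exact mul_le_mul_of_nonneg_left (h4 l (h5 l hl)).le (abs_nonneg _)
          _ = (1 / 2 : ℝ) ^ n * ∑ l ∈ (b a).support, |b a l| := by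
              rw [← Finset.sum_mul, mul_comm]
      calc ‖a - (io μ ∘ₗ lmap m v w) (∑ l ∈ (b a).support, b a l • tr m (u l))‖
          = ‖(a - io μ (b a)) + (io μ (b a)
            - (io μ ∘ₗ lmap m v w) (∑ l ∈ (b a).support, b a l • tr m (u l)))‖ := by
              rw [sub_add_sub_cancel]
        _ ≤ ‖a - io μ (b a)‖ + ‖io μ (b a)
            - (io μ ∘ₗ lmap m v w) (∑ l ∈ (b a).support, b a l • tr m (u l))‖ :=
              norm_add_le _ _
        _ < ε := by linarith [hb a, h8.trans_lt h6]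

/-- Codes of the space are in the G-delta set. -/
theorem mem_of_iso {μ : PN} (J : XX ≃ₗᵢ[ℝ] Sp μ) : μ ∈ Phi := by
  rw [mem_Phi]
  intro n
  let u : ℕ → XX := fun l => J.symm (io μ (Finsupp.single l 1))
  have hJu : ∀ l, J (u l) = io μ (Finsupp.single l 1) := fun l => J.apply_symm_apply _
  have h1 : ∀ᶠ m : ℕ in atTop, n ≤ m ∧ ∀ l ∈ Set.Iio n,
      ‖u l - tr m (u l)‖ < (1 / 2 : ℝ) ^ n / 2 := by
    apply (eventually_ge_atTop n).and
    rw [Filter.eventually_all_finite (Set.finite_Iio n)]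
    intro l _
    have h2 := ((tendsto_tr (u l)).const_sub (u l)).norm
    rw [sub_self, norm_zero] at h2
    exact h2.eventually_lt_const (by positivity)
  obtain ⟨m, hm, hm2⟩ := h1.exists
  -- bounds
  obtain ⟨R, hR⟩ : ∃ R : ℝ, ∀ x ∈ netN m, ‖x‖ ≤ R := by
    obtain ⟨R, hR⟩ := ((netN_finite m).image (fun x : XX => ‖x‖)).bddAbove
    exact ⟨R, fun x hx => hR ⟨x, hx, rfl⟩⟩
  obtain ⟨R', hR'⟩ : ∃ R : ℝ, ∀ l < n, ‖u l‖ ≤ R := by
    obtain ⟨R, hR⟩ := ((Set.finite_Iio n).image (fun l : ℕ => ‖u l‖)).bddAbove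
    exact ⟨R, fun l hl => hR ⟨l, hl, rfl⟩⟩
  obtain ⟨θ, hθ, hθ1, hθ2⟩ : ∃ θ : ℝ, 0 < θ ∧ 2 * m * θ * R < netE m ∧
      2 * m * θ * R' < (1 / 2 : ℝ) ^ n / 2 := by
    have h3 : Tendsto (fun θ : ℝ => 2 * m * θ * R) (𝓝[>] 0) (𝓝 0) := by
      have : Tendsto (fun θ : ℝ => 2 * m * θ * R) (𝓝 0) (𝓝 (2 * m * 0 * R)) :=
        Continuous.tendsto (by fun_prop) 0
      simp only [mul_zero, zero_mul] at this
      exact this.mono_left nhdsWithin_le_nhds
    have h4 : Tendsto (fun θ : ℝ => 2 * m * θ * R') (𝓝[>] 0) (𝓝 0) := by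
      have : Tendsto (fun θ : ℝ => 2 * m * θ * R') (𝓝 0) (𝓝 (2 * m * 0 * R')) :=
        Continuous.tendsto (by fun_prop) 0
      simp only [mul_zero, zero_mul] at this
      exact this.mono_left nhdsWithin_le_nhds
    have h5 : ∀ᶠ θ : ℝ in 𝓝[>] 0, 0 < θ := self_mem_nhdsWithin
    obtain ⟨θ, ⟨h6, h7⟩, h8⟩ := ((h5.and (h3.eventually_lt_const (netE_pos m))).and
      (h4.eventually_lt_const (show (0 : ℝ) < (1 / 2) ^ n / 2 by positivity))).exists
    exact ⟨θ, h6, h7, h8⟩
  have happ : ∀ y : Sp μ, ∃ b : ℕ →₀ ℝ, ‖y - io μ b‖ ≤ θ := by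
    intro y
    obtain ⟨_, ⟨b, rfl⟩, hb⟩ := Metric.mem_closure_iff.1 (dense_io μ y) θ hθ
    exact ⟨b, by rw [dist_eq_norm] at hb; exact hb.le⟩
  choose b hb using happ
  have hclose : ∀ x ∈ FF m, ‖J x - io μ (lmap m (fun k => b (J (ve k))) (fun k => b (J (vf k))) x)‖
      ≤ 2 * m * θ * ‖x‖ := by
    intro x hx
    rw [io_lmap]
    exact close_of_basis J.toLinearEquiv.toLinearMap m _ _ hθ.le (fun k _ => hb _)
      (fun k _ => hb _) hx
  refine ⟨m, hm, fun k => b (J (ve k)), fun k => b (J (vf k)), u, ?_, ?_⟩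
  · intro x hx
    have h3 := hclose x (netN_mem m x hx)
    rw [← norm_io μ, ← J.norm_map x]
    refine lt_of_le_of_lt (abs_norm_sub_norm_le _ _) ?_
    rw [norm_sub_rev]
    refine lt_of_le_of_lt (h3.trans ?_) hθ1
    exact mul_le_mul_of_nonneg_left (hR x hx) (by positivity)
  · intro l hl
    have h3 := hclose (tr m (u l)) (tr_mem_FF m _)
    rw [← norm_io μ, map_sub, ← hJu]
    calc ‖J (u l) - io μ (lmap m (fun k => b (J (ve k))) (fun k => b (J (vf k))) (tr m (u l)))‖
        = ‖J (u l - tr m (u l)) + (J (tr m (u l)) - io μ (lmap m (fun k => b (J (ve k)))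
          (fun k => b (J (vf k))) (tr m (u l))))‖ := by
            rw [map_sub]
            congr 1
            abel
      _ ≤ ‖u l - tr m (u l)‖ + 2 * m * θ * ‖tr m (u l)‖ := by
            refine (norm_add_le _ _).trans (add_le_add ?_ h3)
            rw [J.norm_map]
      _ < (1 / 2 : ℝ) ^ n / 2 + (1 / 2 : ℝ) ^ n / 2 := by
            apply add_lt_add (hm2 l hl)
            refine lt_of_le_of_lt ?_ hθ2
            exact mul_le_mul_of_nonneg_left ((norm_tr_le _ _).trans (hR' l hl)) (by positivity)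
      _ = (1 / 2 : ℝ) ^ n := by ring

/-- The isometry class is the G-delta set. -/
theorem mem_Phi_iff (μ : PN) : μ ∈ Phi ↔ Nonempty (Sp μ ≃ₗᵢ[ℝ] XX) := by
  constructor
  · intro h
    have hs := separable_Sp μ
    obtain ⟨J⟩ := iso_of_approx (approx_of_mem h) (TopologicalSpace.denseSeq (Sp μ))
      (TopologicalSpace.denseRange_denseSeq (Sp μ))
    exact ⟨J.symm⟩
  · rintro ⟨J⟩
    exact mem_of_iso J.symm

/-- The isometry class of the space in any set of codes is a G-delta set. -/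
theorem isGδ_class (J : Set PN) : IsGδ {μ : J | Nonempty (Sp μ.1 ≃ₗᵢ[ℝ] XX)} := by
  have h1 : {μ : J | Nonempty (Sp μ.1 ≃ₗᵢ[ℝ] XX)} = (Subtype.val : J → PN) ⁻¹' Phi := by
    ext μ
    exact (mem_Phi_iff μ.1).symm
  rw [h1]
  exact IsGδ.preimage continuous_subtype_val isGδ_Phi

end Pool.Agent.R278.LS
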