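import Pool.Agent.R278.LS.Rigid

/-!
# Cofinality of rigid subspaces
-/

open Set Filter Topology

namespace Pool.Agent.R278.LS

/-- Perturbed signed permutation matrices have determinant bounded away from zero. -/
theorem det_perturb (σ : SP) {a a' b b' : ℝ} (h1 : |a - m11 σ| ≤ 1 / 10)
    (h2 : |a' - m21 σ| ≤ 1 / 10) (h3 : |b - m12 σ| ≤ 1 / 10) (h4 : |b' - m22 σ| ≤ 1 / 10) :
    1 / 2 ≤ |a * b' - b * a'| := by
  obtain ⟨s0, s1, s2⟩ := σ
  rw [abs_le] at h1 h2 h3 h4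
  rw [le_abs]
  cases s0 <;> cases s1 <;> cases s2 <;>
    simp only [m11, m12, m21, m22, sg, if_true, if_false, Bool.false_eq_true] at h1 h2 h3 h4
  · left
    nlinarith
  · right
    nlinarith
  · right
    nlinarith
  · left
    nlinarith
  · right
    nlinarith
  · left
    nlinarith
  · left
    nlinarith
  · right
    nlinarith

theorem act_congr {σ τ : ℕ → SP} {m : ℕ} (h : ∀ n < m, σ n = τ n) {x : XX} (hx : x ∈ FF m) :
    act σ x = act τ x := by
  apply lp.ext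
  funext n
  rw [act_apply, act_apply]
  by_cases hn : n < m
  · rw [h n hn]
  · have h1 : x n = 0 := by
      rw [← mem_FF.1 hx, tr_apply, if_neg hn]
    rw [h1, map_zero, map_zero]

/-- Every finite-dimensional subspace is contained in a finite-dimensional subspace all of whose
almost isometric embeddings are close to blockwise signed permutations. -/
theorem cofinal (E : Submodule ℝ XX) [FiniteDimensional ℝ E] {ε : ℝ} (hε : 0 < ε) :
    ∃ F : Submodule ℝ XX, E ≤ F ∧ FiniteDimensional ℝ F ∧ ∃ δ : ℝ, 0 < δ ∧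
      ∀ ι : F →ₗ[ℝ] XX, (∀ x, (1 + δ)⁻¹ * ‖x‖ ≤ ‖ι x‖ ∧ ‖ι x‖ ≤ (1 + δ) * ‖x‖) →
        ∃ σ : ℕ → SP, ∀ x : F, ‖ι x - act σ (x : XX)‖ ≤ ε * ‖x‖ := by
  -- step 1
  obtain ⟨m₀, hm₀⟩ : ∃ m₀ : ℕ, ∀ x : E, ‖(x : XX) - tr m₀ (x : XX)‖ ≤ 1 / 2 * ‖x‖ := by
    have h := unif_small (l := atTop)
      (fun m : ℕ => (LinearMap.id - (tr m).toLinearMap) ∘ₗ E.subtype) (by
        intro x
        have h1 := (tendsto_tr (x : XX)).const_sub (x : XX)
        rw [sub_self] at h1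
        exact h1) (show (0 : ℝ) < 1 / 2 by norm_num)
    obtain ⟨m₀, h2⟩ := h.exists
    exact ⟨m₀, h2⟩
  -- step 2
  let R : E →ₗ[ℝ] XX := (tr m₀).toLinearMap ∘ₗ E.subtype
  have hR : LinearMap.ker R = ⊥ := by
    rw [LinearMap.ker_eq_bot']
    intro x hx
    have h1 := hm₀ x
    have h2 : tr m₀ (x : XX) = 0 := hx
    rw [h2, sub_zero] at h1
    have h3 : ‖(x : XX)‖ = ‖x‖ := rfl
    rw [h3] at h1
    have h4 : ‖x‖ ≤ 0 := by linarith
    exact norm_le_zero_iff.1 h4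
  obtain ⟨M0, hM0⟩ := R.exists_leftInverse_of_injective hR
  have hM0' : ∀ x : E, M0 (tr m₀ (x : XX)) = x := fun x => congrArg (fun L => L x) hM0
  let M : XX →ₗ[ℝ] XX := E.subtype ∘ₗ M0 ∘ₗ (tr m₀).toLinearMap
  have hM : ∀ x, M x = (M0 (tr m₀ x) : XX) := fun _ => rfl
  -- step 3
  obtain ⟨δ₀, hδ₀, hrig⟩ := rigid m₀ (ε := min (ε / 4) (1 / 10)) (lt_min (by positivity)
    (by norm_num))
  -- step 4
  obtain ⟨m, hm, hmN⟩ : ∃ m : ℕ, m₀ ≤ m ∧ ∀ x : FF m₀,
      ‖M (x : XX) - tr m (M (x : XX))‖ ≤ min (ε / 4) (δ₀ / 2) * ‖x‖ := by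
    have h := unif_small (l := atTop)
      (fun m : ℕ => (LinearMap.id - (tr m).toLinearMap) ∘ₗ M ∘ₗ (FF m₀).subtype) (by
        intro x
        have h1 := (tendsto_tr (M (x : XX))).const_sub (M (x : XX))
        rw [sub_self] at h1
        exact h1) (show 0 < min (ε / 4) (δ₀ / 2) from lt_min (by positivity) (by positivity))
    obtain ⟨m, h2, h3⟩ := (h.and (eventually_ge_atTop m₀)).exists
    exact ⟨m, h3, h2⟩
  let N : XX →ₗ[ℝ] XX := (LinearMap.id - (tr m).toLinearMap) ∘ₗ M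
  have hN : ∀ x, N x = M x - tr m (M x) := fun _ => rfl
  have hNtr : ∀ x, N (tr m₀ x) = N x := by
    intro x
    rw [hN, hN, hM, hM, tr_tr]
  have hNtr' : ∀ x, N (tr m x) = N x := by
    intro x
    rw [← hNtr (tr m x), tr_tr_of_le hm, hNtr]
  have hNn : ∀ x, ‖N x‖ ≤ min (ε / 4) (δ₀ / 2) * ‖tr m₀ x‖ := by
    intro x
    rw [← hNtr, hN]
    exact hmN ⟨tr m₀ x, tr_mem_FF m₀ x⟩
  have hNz : ∀ x n, n < m → N x n = 0 := by
    intro x n hn
    rw [hN, lp.coeFn_sub, Pi.sub_apply, tr_apply, if_pos hn, sub_self]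
  let S : XX →ₗ[ℝ] XX := LinearMap.id + N
  have hS : ∀ x, S x = x + N x := fun _ => rfl
  let F : Submodule ℝ XX := (FF m).map S
  have hSF : ∀ x, S (tr m x) ∈ F := fun x => ⟨tr m x, tr_mem_FF m x, rfl⟩
  have hSn : ∀ w ∈ FF m, ‖S w‖ ^ 2 = ‖w‖ ^ 2 + ‖N w‖ ^ 2 := by
    intro w hw
    rw [hS]
    apply norm_sq_add_of_disj
    intro n
    by_cases hn : n < m
    · exact Or.inr (hNz w n hn)
    · left
      rw [← mem_FF.1 hw, tr_apply, if_neg hn]
  refine ⟨F, ?_, inferInstance, ?_⟩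
  · intro e he
    refine ⟨tr m e, tr_mem_FF m e, ?_⟩
    have h1 : M e = e := by
      rw [hM]
      have := hM0' ⟨e, he⟩
      exact congrArg (fun z : E => (z : XX)) this
    rw [hS, hNtr', hN, h1]
    abel
  by_contra hcon
  push Not at hcon
  have hc : ∀ i : ℕ, ∃ ι : F →ₗ[ℝ] XX,
      (∀ x, (1 + 1 / ((i : ℝ) + 1))⁻¹ * ‖x‖ ≤ ‖ι x‖ ∧
        ‖ι x‖ ≤ (1 + 1 / ((i : ℝ) + 1)) * ‖x‖) ∧
      ∀ σ : ℕ → SP, ∃ x : F, ε * ‖x‖ < ‖ι x - act σ (x : XX)‖ := fun i =>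
    hcon (1 / ((i : ℝ) + 1)) (by positivity)
  choose ι hι1 hι2 using hc
  let q : XX →ₗ[ℝ] F := (S ∘ₗ (tr m).toLinearMap).codRestrict F (fun x => hSF x)
  have hq : ∀ x, ((q x : F) : XX) = S (tr m x) := fun _ => rfl
  let κ : ℕ → XX →ₗ[ℝ] XX := fun i => ι i ∘ₗ q
  have hκ : ∀ i x, κ i x = ι i (q x) := fun _ _ => rfl
  let ν : XX → ℝ := fun x => ‖S (tr m x)‖
  have hν : ∀ x, Tendsto (fun i => ‖κ i x‖) (hyperfilter ℕ : Filter ℕ) (𝓝 (ν x)) := by
    intro x
    apply tendsto_of_bounds tendsto_one_div_hyper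
    filter_upwards with i
    exact hι1 i (q x)
  have hνsq : ∀ x, ν x ^ 2 = ‖tr m x‖ ^ 2 + ‖N x‖ ^ 2 := by
    intro x
    change ‖S (tr m x)‖ ^ 2 = _
    rw [hSn _ (tr_mem_FF m x), hNtr']
  obtain ⟨α, β, hα, hβ⟩ := exists_coord_lim hν
  have hNpt : ∀ k, m₀ ≤ k → ∀ s t, N (pt k s t) = 0 := by
    intro k hk s t
    rw [← hNtr, tr_pt_of_le hk, map_zero]
  -- closeness on the first blocks
  have hfirst : ∀ᶠ i in (hyperfilter ℕ : Filter ℕ), ∃ σ : ℕ → SP, ∀ x ∈ FF m₀,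
      ‖κ i x - act σ x‖ ≤ min (ε / 4) (1 / 10) * ‖x‖ := by
    have h1 : ∀ᶠ i : ℕ in (hyperfilter ℕ : Filter ℕ), 1 / ((i : ℝ) + 1) < δ₀ / (4 * (1 + δ₀)) :=
      tendsto_one_div_hyper.eventually_lt_const (by positivity)
    filter_upwards [h1] with i hi
    apply hrig
    intro x hx
    have hx' : tr m x = x := by
      rw [mem_FF] at hx
      rw [← hx]
      apply lp.ext
      funext n
      rw [tr_apply, tr_apply]
      by_cases h2 : n < m₀
      · rw [if_pos h2, if_pos (by omega)]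
      · rw [if_neg h2]
        simp
    have h2 := hι1 i (q x)
    have h3 : ‖q x‖ = ‖S x‖ := by
      have : ‖q x‖ = ‖S (tr m x)‖ := rfl
      rw [this, hx']
    have h4 : ‖S x‖ ^ 2 = ‖x‖ ^ 2 + ‖N x‖ ^ 2 := hSn x (mem_FF.2 hx')
    have h5 : ‖x‖ ≤ ‖S x‖ := by
      apply (sq_le_sq₀ (norm_nonneg _) (norm_nonneg _)).1
      rw [h4]
      nlinarith [sq_nonneg ‖N x‖]
    have h6 : ‖S x‖ ≤ (1 + δ₀ / 2) * ‖x‖ := by
      calc ‖S x‖ = ‖x + N x‖ := by rw [hS]
        _ ≤ ‖x‖ + ‖N x‖ := norm_add_le _ _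
        _ ≤ ‖x‖ + δ₀ / 2 * ‖x‖ := by
            have h7 := hNn x
            rw [mem_FF.1 hx] at h7
            have h8 : min (ε / 4) (δ₀ / 2) * ‖x‖ ≤ δ₀ / 2 * ‖x‖ :=
              mul_le_mul_of_nonneg_right (min_le_right _ _) (norm_nonneg _)
            linarith
        _ = (1 + δ₀ / 2) * ‖x‖ := by ring
    rw [← hκ, h3] at h2
    have hd : (1 + 1 / ((i : ℝ) + 1)) * (1 + δ₀ / 2) ≤ 1 + δ₀ := by
      have h7 : (1 + 1 / ((i : ℝ) + 1)) ≤ 1 + δ₀ / (4 * (1 + δ₀)) := by linarith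
      have h8 : δ₀ / (4 * (1 + δ₀)) * (1 + δ₀) = δ₀ / 4 := by
        field_simp
      have h9 : 0 < δ₀ / (4 * (1 + δ₀)) := by positivity
      nlinarith
    have hi0 : 0 < 1 / ((i : ℝ) + 1) := by positivity
    constructor
    · have h7 : (1 + δ₀)⁻¹ ≤ (1 + 1 / ((i : ℝ) + 1))⁻¹ := by
        apply inv_anti₀ (by positivity)
        nlinarith
      calc (1 + δ₀)⁻¹ * ‖x‖ ≤ (1 + 1 / ((i : ℝ) + 1))⁻¹ * ‖S x‖ :=
            mul_le_mul h7 h5 (norm_nonneg _) (by positivity)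
        _ ≤ ‖κ i x‖ := h2.1
    · calc ‖κ i x‖ ≤ (1 + 1 / ((i : ℝ) + 1)) * ‖S x‖ := h2.2
        _ ≤ (1 + 1 / ((i : ℝ) + 1)) * ((1 + δ₀ / 2) * ‖x‖) :=
            mul_le_mul_of_nonneg_left h6 (by positivity)
        _ = ((1 + 1 / ((i : ℝ) + 1)) * (1 + δ₀ / 2)) * ‖x‖ := by ring
        _ ≤ (1 + δ₀) * ‖x‖ := mul_le_mul_of_nonneg_right hd (norm_nonneg _)
  have hC : ∀ n < m₀, α n (ve n) * β n (vf n) - α n (vf n) * β n (ve n) ≠ 0 := by
    intro n hn
    have hnorm1 : ‖ve n‖ = 1 := by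
      have : ‖ve n‖ ^ 2 = 1 := by
        rw [ve, norm_pt_sq]
        simp [gg]
      nlinarith [norm_nonneg (ve n)]
    have hnorm2 : ‖vf n‖ = 1 := by
      have : ‖vf n‖ ^ 2 = 1 := by
        rw [vf, norm_pt_sq]
        simp [gg]
      nlinarith [norm_nonneg (vf n)]
    have hve : ve n ∈ FF m₀ := mem_FF.2 (tr_pt_of_lt hn _ _)
    have hvf : vf n ∈ FF m₀ := mem_FF.2 (tr_pt_of_lt hn _ _)
    have hlim : Tendsto (fun i => |ca n (κ i (ve n)) * cb n (κ i (vf n))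
        - ca n (κ i (vf n)) * cb n (κ i (ve n))|) (hyperfilter ℕ : Filter ℕ)
        (𝓝 |α n (ve n) * β n (vf n) - α n (vf n) * β n (ve n)|) :=
      (((hα n (ve n)).mul (hβ n (vf n))).sub ((hα n (vf n)).mul (hβ n (ve n)))).abs
    have hge : 1 / 2 ≤ |α n (ve n) * β n (vf n) - α n (vf n) * β n (ve n)| := by
      apply ge_of_tendsto hlim
      filter_upwards [hfirst] with i hi
      obtain ⟨σ, hσ⟩ := hi
      have h1 := hσ _ hve
      have h2 := hσ _ hvf
      rw [hnorm1, mul_one] at h1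
      rw [hnorm2, mul_one] at h2
      have h3 := h1.trans (min_le_right _ _)
      have h4 := h2.trans (min_le_right _ _)
      apply det_perturb (σ n)
      · have h5 := abs_ca_le (κ i (ve n) - act σ (ve n)) n
        rw [map_sub, act_ve, ca_pt_self, ← act_ve] at h5
        exact h5.trans h3
      · have h5 := abs_cb_le (κ i (ve n) - act σ (ve n)) n
        rw [map_sub, act_ve, cb_pt_self, ← act_ve] at h5
        exact h5.trans h3
      · have h5 := abs_ca_le (κ i (vf n) - act σ (vf n)) n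
        rw [map_sub, act_vf, ca_pt_self, ← act_vf] at h5
        exact h5.trans h4
      · have h5 := abs_cb_le (κ i (vf n) - act σ (vf n)) n
        rw [map_sub, act_vf, cb_pt_self, ← act_vf] at h5
        exact h5.trans h4
    intro h0
    rw [h0, abs_zero] at hge
    norm_num at hge
  obtain ⟨σ', hσ'⟩ := chain hν hα hβ m₀ m
    (by
      intro k hk hkm s t
      rw [hνsq, comb_ve_vf, tr_pt_of_lt hkm, hNpt k hk, norm_pt_sq, norm_zero]
      ring)
    (by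
      intro k hk hkm n hn u hu v hv s t
      have hu' : tr m u = u := by
        rcases hu with rfl | rfl
        · exact tr_pt_of_lt (hn.trans hkm) _ _
        · exact tr_pt_of_lt (hn.trans hkm) _ _
      have hv' : tr m v = v := by
        rcases hv with rfl | rfl
        · exact tr_pt_of_lt hkm _ _
        · exact tr_pt_of_lt hkm _ _
      have hNv : N v = 0 := by
        rcases hv with rfl | rfl
        · exact hNpt k hk _ _
        · exact hNpt k hk _ _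
      rw [hνsq, hνsq, hνsq, map_add, map_smul, map_smul, hu', hv', map_add, map_smul, map_smul,
        hNv, smul_zero, add_zero, norm_smul, norm_zero]
      have hd : Disj u v := by
        intro i
        by_cases hi : i = n
        · right
          rcases hv with rfl | rfl
          · exact pt_apply_ne (by omega) _ _
          · exact pt_apply_ne (by omega) _ _
        · left
          rcases hu with rfl | rfl
          · exact pt_apply_ne hi _ _
          · exact pt_apply_ne hi _ _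
      rw [norm_sq_comb_of_disj hd, mul_pow, Real.norm_eq_abs, sq_abs]
      ring) hC
  -- convergence on the middle blocks
  let D : ℕ → FF m →ₗ[ℝ] XX := fun i => (κ i - (act σ').toLinearEquiv.toLinearMap) ∘ₗ
    (LinearMap.id - (tr m₀).toLinearMap) ∘ₗ (FF m).subtype
  have hD : ∀ i x, D i x = κ i ((x : XX) - tr m₀ (x : XX)) - act σ' ((x : XX) - tr m₀ (x : XX)) :=
    fun _ _ => rfl
  have hDt : ∀ x, Tendsto (fun i => D i x) (hyperfilter ℕ : Filter ℕ) (𝓝 0) := by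
    intro x
    have hx : (x : XX) - tr m₀ (x : XX) = ∑ k ∈ Finset.Ico m₀ m,
        (ca k (x : XX) • ve k + cb k (x : XX) • vf k) := by
      rw [Finset.sum_Ico_eq_sub _ hm, ← tr_eq_comb, ← tr_eq_comb, mem_FF.1 x.2]
    have h1 : ∀ i, D i x = ∑ k ∈ Finset.Ico m₀ m, (ca k (x : XX) • (κ i (ve k) - act σ' (ve k))
        + cb k (x : XX) • (κ i (vf k) - act σ' (vf k))) := by
      intro i
      rw [hD, hx]
      rw [map_sum, map_sum, ← Finset.sum_sub_distrib]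
      apply Finset.sum_congr rfl
      intro k hk
      rw [map_add, map_add, map_smul, map_smul, map_smul, map_smul]
      module
    simp only [h1]
    rw [← Finset.sum_const_zero (s := Finset.Ico m₀ m)]
    apply tendsto_finsetSum
    intro k hk
    have hk' := Finset.mem_Ico.1 hk
    obtain ⟨h2, h3⟩ := hσ' k hk'.1 hk'.2
    rw [← act_ve σ' k] at h2
    rw [← act_vf σ' k] at h3
    have h4 := ((h2.sub_const (act σ' (ve k))).const_smul (ca k (x : XX))).add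
      ((h3.sub_const (act σ' (vf k))).const_smul (cb k (x : XX)))
    simpa using h4
  obtain ⟨i, hi, σ'', hσ''⟩ := ((unif_small D hDt (show 0 < ε / 4 by positivity)).and
    hfirst).exists
  let τ : ℕ → SP := fun n => if n < m₀ then σ'' n else σ' n
  obtain ⟨x, hx⟩ := hι2 i τ
  obtain ⟨w, hw, hwx⟩ := x.2
  have hqw : q w = x := by
    apply Subtype.ext
    rw [hq, mem_FF.1 hw, hwx]
  have hwn : ‖w‖ ≤ ‖x‖ := by
    apply (sq_le_sq₀ (norm_nonneg _) (norm_nonneg _)).1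
    have h1 : ‖x‖ = ‖S w‖ := by
      have : ‖x‖ = ‖(x : XX)‖ := rfl
      rw [this, hwx]
    rw [h1, hSn w hw]
    nlinarith [sq_nonneg ‖N w‖]
  have hsplit : ι i x - act τ (x : XX) = (κ i (tr m₀ w) - act σ'' (tr m₀ w)) + D i ⟨w, hw⟩
      - act τ (N w) := by
    have h1 : (x : XX) = tr m₀ w + (w - tr m₀ w) + N w := by
      rw [← hwx, hS]
      abel
    have h2 : act τ (tr m₀ w) = act σ'' (tr m₀ w) :=
      act_congr (fun n hn => by simp only [τ]; rw [if_pos hn]) (tr_mem_FF m₀ w)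
    have h3 : act τ (w - tr m₀ w) = act σ' (w - tr m₀ w) := by
      apply lp.ext
      funext n
      rw [act_apply, act_apply]
      by_cases hn : n < m₀
      · have h4 : (w - tr m₀ w) n = 0 := by
          rw [lp.coeFn_sub, Pi.sub_apply, tr_apply, if_pos hn, sub_self]
        rw [h4, map_zero, map_zero]
      · simp only [τ]
        rw [if_neg hn]
    have h4 : ι i x = κ i (tr m₀ w) + κ i (w - tr m₀ w) := by
      rw [← map_add, add_sub_cancel, hκ, hqw]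
    rw [hD, h4, h1, map_add, map_add, h2, h3]
    abel
  have h1 := hσ'' (tr m₀ w) (tr_mem_FF m₀ w)
  have h2 := hi ⟨w, hw⟩
  have h3 := hNn w
  have h4 : ‖tr m₀ w‖ ≤ ‖w‖ := norm_tr_le m₀ w
  have h5 : ‖κ i (tr m₀ w) - act σ'' (tr m₀ w)‖ ≤ ε / 4 * ‖w‖ :=
    h1.trans (mul_le_mul (min_le_left _ _) h4 (norm_nonneg _) (by positivity))
  have h6 : ‖N w‖ ≤ ε / 4 * ‖w‖ :=
    h3.trans (mul_le_mul (min_le_left _ _) h4 (norm_nonneg _) (by positivity))
  have h7 : ‖D i ⟨w, hw⟩‖ ≤ ε / 4 * ‖w‖ := h2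
  have h8 : ‖ι i x - act τ (x : XX)‖ ≤ ε * ‖x‖ := by
    rw [hsplit]
    calc ‖(κ i (tr m₀ w) - act σ'' (tr m₀ w)) + D i ⟨w, hw⟩ - act τ (N w)‖
        ≤ ‖(κ i (tr m₀ w) - act σ'' (tr m₀ w)) + D i ⟨w, hw⟩‖ + ‖act τ (N w)‖ := norm_sub_le _ _
      _ ≤ ‖κ i (tr m₀ w) - act σ'' (tr m₀ w)‖ + ‖D i ⟨w, hw⟩‖ + ‖N w‖ := by
          rw [(act τ).norm_map]
          exact add_le_add (norm_add_le _ _) le_rfl
      _ ≤ ε / 4 * ‖w‖ + ε / 4 * ‖w‖ + ε / 4 * ‖w‖ := add_le_add (add_le_add h5 h7) h6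
      _ = 3 / 4 * ε * ‖w‖ := by ring
      _ ≤ ε * ‖x‖ := by
          apply mul_le_mul _ hwn (norm_nonneg _) hε.le
          linarith
  exact absurd h8 (not_le.2 hx)

end Pool.Agent.R278.LS
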