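import Pool.Agent.R278.LS.Space

/-!
# Asymptotic rigidity of embeddings
-/

open Set Filter Topology

namespace Pool.Agent.R278.LS

theorem exists_lim {I : Type} (U : Ultrafilter I) {f : I → ℝ} {C : ℝ}
    (h : ∀ᶠ i in (U : Filter I), |f i| ≤ C) : ∃ L, Tendsto f U (𝓝 L) := by
  have h1 : (U.map f : Filter ℝ) ≤ 𝓟 (Set.Icc (-C) C) := by
    rw [le_principal_iff, Ultrafilter.coe_map, Filter.mem_map]
    filter_upwards [h] with i hi
    exact abs_le.1 hi
  obtain ⟨L, -, hL⟩ := isCompact_Icc.ultrafilter_le_nhds (U.map f) h1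
  exact ⟨L, hL⟩

theorem continuous_gg (e : ℝ) : Continuous (fun p : ℝ × ℝ => gg e p.1 p.2) := by
  unfold gg
  fun_prop

theorem tendsto_gg {I : Type} {l : Filter I} (e : ℝ) {f g : I → ℝ} {a b : ℝ}
    (hf : Tendsto f l (𝓝 a)) (hg : Tendsto g l (𝓝 b)) :
    Tendsto (fun i => gg e (f i) (g i)) l (𝓝 (gg e a b)) :=
  ((continuous_gg e).tendsto (a, b)).comp (hf.prodMk_nhds hg)

theorem tendsto_tt {I : Type} {l : Filter I} {f g h k : I → ℝ} {a b c d : ℝ}
    (hf : Tendsto f l (𝓝 a)) (hg : Tendsto g l (𝓝 b)) (hh : Tendsto h l (𝓝 c))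
    (hk : Tendsto k l (𝓝 d)) :
    Tendsto (fun i => tt (f i) (g i) (h i) (k i)) l (𝓝 (tt a b c d)) := by
  unfold tt
  exact (((((hf.add hh).mul (hg.add hk)).abs).add (((hf.sub hh).mul (hg.sub hk)).abs)).sub
    (((hf.mul hg).abs).const_mul 2)).sub (((hh.mul hk).abs).const_mul 2)

theorem tendsto_hs {I : Type} {l : Filter I} {f g h k : I → ℝ} {a b c d : ℝ}
    (hf : Tendsto f l (𝓝 a)) (hg : Tendsto g l (𝓝 b)) (hh : Tendsto h l (𝓝 c))
    (hk : Tendsto k l (𝓝 d)) :
    Tendsto (fun i => hs (f i) (g i) (h i) (k i)) l (𝓝 (hs a b c d)) := by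
  unfold hs
  exact (((hf.pow 2).add (hg.pow 2)).add (hh.pow 2)).add (hk.pow 2)

theorem tendsto_pt {I : Type} {l : Filter I} (k : ℕ) {f g : I → ℝ} {a b : ℝ}
    (hf : Tendsto f l (𝓝 a)) (hg : Tendsto g l (𝓝 b)) :
    Tendsto (fun i => pt k (f i) (g i)) l (𝓝 (pt k a b)) := by
  have h1 : ∀ s t, pt k s t = s • ve k + t • vf k := fun s t => (comb_ve_vf k s t).symm
  simp only [h1]
  exact (hf.smul_const _).add (hg.smul_const _)

theorem norm_sub_pt_sq (x : XX) (k : ℕ) :
    ‖x - pt k (ca k x) (cb k x)‖ ^ 2 = ‖x‖ ^ 2 - gg (ep k) (ca k x) (cb k x) := by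
  have h : Disj (pt k (ca k x) (cb k x)) (x - pt k (ca k x) (cb k x)) := by
    intro n
    by_cases hn : n = k
    · right
      subst hn
      apply Blk.ext'
      · have := ca_pt_self n (ca n x) (cb n x)
        rw [ca_apply] at this
        rw [lp.coeFn_sub, Pi.sub_apply, Blk.fs_sub, this, ca_apply, sub_self, Blk.fs_zero]
      · have := cb_pt_self n (ca n x) (cb n x)
        rw [cb_apply] at this
        rw [lp.coeFn_sub, Pi.sub_apply, Blk.sn_sub, this, cb_apply, sub_self, Blk.sn_zero]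
    · left
      exact pt_apply_ne hn _ _
  have h1 := norm_sq_add_of_disj h
  rw [add_sub_cancel, norm_pt_sq] at h1
  linarith

/-- Convergence to a point of a block. -/
theorem tendsto_of_block {I : Type} {l : Filter I} {x : I → XX} {k : ℕ} {a b r : ℝ}
    (hr : Tendsto (fun i => ‖x i‖) l (𝓝 r)) (ha : Tendsto (fun i => ca k (x i)) l (𝓝 a))
    (hb : Tendsto (fun i => cb k (x i)) l (𝓝 b)) (hab : gg (ep k) a b = r ^ 2) :
    Tendsto x l (𝓝 (pt k a b)) := by
  have h1 : Tendsto (fun i => ‖x i - pt k (ca k (x i)) (cb k (x i))‖ ^ 2) l (𝓝 0) := by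
    simp only [norm_sub_pt_sq]
    have := (hr.pow 2).sub (tendsto_gg (ep k) ha hb)
    rw [hab, sub_self] at this
    exact this
  have h2 : Tendsto (fun i => ‖x i - pt k (ca k (x i)) (cb k (x i))‖) l (𝓝 0) := by
    have h3 := h1.sqrt
    rw [Real.sqrt_zero] at h3
    refine h3.congr ?_
    intro i
    exact Real.sqrt_sq (norm_nonneg _)
  have h3 : Tendsto (fun i => x i - pt k (ca k (x i)) (cb k (x i))) l (𝓝 0) :=
    tendsto_zero_iff_norm_tendsto_zero.2 h2
  have h4 := h3.add (tendsto_pt k ha hb)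
  rw [zero_add] at h4
  refine h4.congr ?_
  intro i
  rw [sub_add_cancel]

section

variable {I : Type} {U : Ultrafilter I} {F : Type*} [AddCommGroup F] [Module ℝ F]
  {κ : I → F →ₗ[ℝ] XX} {ν : F → ℝ} {α β : ℕ → F → ℝ}

theorem exists_coord_lim (hν : ∀ x, Tendsto (fun i => ‖κ i x‖) U (𝓝 (ν x))) :
    ∃ α β : ℕ → F → ℝ, (∀ n x, Tendsto (fun i => ca n (κ i x)) U (𝓝 (α n x))) ∧
      ∀ n x, Tendsto (fun i => cb n (κ i x)) U (𝓝 (β n x)) := by
  have hb : ∀ x, ∀ᶠ i in (U : Filter I), ‖κ i x‖ ≤ ν x + 1 := by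
    intro x
    exact (hν x).eventually_le_const (by linarith)
  have h1 : ∀ n x, ∃ L, Tendsto (fun i => ca n (κ i x)) U (𝓝 L) := by
    intro n x
    apply exists_lim U (C := ν x + 1)
    filter_upwards [hb x] with i hi
    exact (abs_ca_le _ _).trans hi
  have h2 : ∀ n x, ∃ L, Tendsto (fun i => cb n (κ i x)) U (𝓝 L) := by
    intro n x
    apply exists_lim U (C := ν x + 1)
    filter_upwards [hb x] with i hi
    exact (abs_cb_le _ _).trans hi
  choose α hα using h1
  choose β hβ using h2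
  exact ⟨α, β, hα, hβ⟩

theorem lim_comb (g : XX →ₗ[ℝ] ℝ) {α : F → ℝ}
    (hα : ∀ x, Tendsto (fun i => g (κ i x)) U (𝓝 (α x))) (s t : ℝ) (x y : F) :
    α (s • x + t • y) = s * α x + t * α y := by
  have h1 := hα (s • x + t • y)
  have h2 := ((hα x).const_mul s).add ((hα y).const_mul t)
  refine tendsto_nhds_unique h1 (h2.congr ?_)
  intro i
  simp only [map_add, map_smul, smul_eq_mul]

theorem lim_second_diff (hν : ∀ x, Tendsto (fun i => ‖κ i x‖) U (𝓝 (ν x)))
    (hα : ∀ n x, Tendsto (fun i => ca n (κ i x)) U (𝓝 (α n x)))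
    (hβ : ∀ n x, Tendsto (fun i => cb n (κ i x)) U (𝓝 (β n x))) (x y : F) (n : ℕ) :
    gg (ep n) (α n x + α n y) (β n x + β n y) + gg (ep n) (α n x - α n y) (β n x - β n y)
      - 2 * gg (ep n) (α n x) (β n x) ≤ ν (x + y) ^ 2 + ν (x - y) ^ 2 - 2 * ν x ^ 2 := by
  have h1 := ((tendsto_gg (ep n) ((hα n x).add (hα n y)) ((hβ n x).add (hβ n y))).add
    (tendsto_gg (ep n) ((hα n x).sub (hα n y)) ((hβ n x).sub (hβ n y)))).sub
    ((tendsto_gg (ep n) (hα n x) (hβ n x)).const_mul 2)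
  have h2 := (((hν (x + y)).pow 2).add ((hν (x - y)).pow 2)).sub (((hν x).pow 2).const_mul 2)
  refine le_of_tendsto_of_tendsto' h1 h2 ?_
  intro i
  have h3 := second_diff (κ i x) (κ i y) n
  rw [map_add, map_sub]
  exact h3

/-- Strongly orthogonal vectors have parallel components in every block. -/
theorem par (hν : ∀ x, Tendsto (fun i => ‖κ i x‖) U (𝓝 (ν x)))
    (hα : ∀ n x, Tendsto (fun i => ca n (κ i x)) U (𝓝 (α n x)))
    (hβ : ∀ n x, Tendsto (fun i => cb n (κ i x)) U (𝓝 (β n x))) {u v : F}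
    (huv : ∀ s t : ℝ, ν (s • u + t • v) ^ 2 = s ^ 2 * ν u ^ 2 + t ^ 2 * ν v ^ 2) (n : ℕ) :
    α n v * β n u = α n u * β n v := by
  have key : ∀ p q : ℝ, ∀ h : ℝ, 
      gg (ep n) ((p * α n u + q * α n v) + h * α n v) ((p * β n u + q * β n v) + h * β n v)
      + gg (ep n) ((p * α n u + q * α n v) - h * α n v) ((p * β n u + q * β n v) - h * β n v)
      - 2 * gg (ep n) (p * α n u + q * α n v) (p * β n u + q * β n v) ≤ 2 * h ^ 2 * ν v ^ 2 := by
    intro p q h
    have h1 := lim_second_diff hν hα hβ (p • u + q • v) ((0 : ℝ) • u + h • v) n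
    simp only [lim_comb (ca n) (hα n), lim_comb (cb n) (hβ n)] at h1
    have e1 : p • u + q • v + ((0 : ℝ) • u + h • v) = p • u + (q + h) • v := by
      module
    have e2 : p • u + q • v - ((0 : ℝ) • u + h • v) = p • u + (q - h) • v := by
      module
    rw [e1, e2, huv, huv, huv] at h1
    simp only [zero_mul, zero_add] at h1
    linarith
  have hn := ep_pos n
  set a := α n u with ha
  set b := β n u with hb
  set c := α n v with hc
  set d := β n v with hd
  have hcy : |c| * |c * b - a * d| ≤ 0 := by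
    apply le_of_forall_pos_le_add
    intro δ hδ
    rw [zero_add]
    set V := ν v ^ 2 with hV
    have hV0 : 0 ≤ V := sq_nonneg _
    set h : ℝ := 2 * ep n * δ / (V + 1) with hh
    have hhp : 0 < h := by positivity
    have h1 := key c (-a) h
    have e1 : c * a + -a * c = 0 := by ring
    have e2 : c * b + -a * d = c * b - a * d := by ring
    rw [e1, e2] at h1
    set y := c * b - a * d with hy
    have h2 : 4 * ep n * h * (|c| * |y|) ≤ 2 * h ^ 2 * V := by
      refine le_trans ?_ h1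
      unfold gg
      simp only [zero_add, zero_sub, zero_mul, mul_zero, abs_zero, abs_mul, abs_neg,
        abs_of_pos hhp]
      have h3 : 2 * |y| ≤ |y + h * d| + |y - h * d| := by
        calc 2 * |y| = |(y + h * d) + (y - h * d)| := by
              rw [show (y + h * d) + (y - h * d) = 2 * y by ring, abs_mul]
              norm_num
          _ ≤ _ := abs_add_le _ _
      have h4 := mul_le_mul_of_nonneg_left h3 (show 0 ≤ 2 * ep n * (h * |c|) by positivity)
      nlinarith [sq_nonneg (h * c), sq_nonneg (h * d)]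
    have h3 : 2 * ep n * (|c| * |y|) ≤ h * V := by
      have : (2 * h) * (2 * ep n * (|c| * |y|)) ≤ (2 * h) * (h * V) := by linarith
      exact le_of_mul_le_mul_left this (by positivity)
    have h4 : h * V ≤ 2 * ep n * δ := by
      rw [hh, div_mul_eq_mul_div, div_le_iff₀ (by positivity)]
      nlinarith [mul_pos (mul_pos (show (0 : ℝ) < 2 by norm_num) hn) hδ]
    have h5 : (2 * ep n) * (|c| * |y|) ≤ (2 * ep n) * δ := h3.trans h4
    exact le_of_mul_le_mul_left h5 (by positivity)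
  have hdy : |d| * |c * b - a * d| ≤ 0 := by
    apply le_of_forall_pos_le_add
    intro δ hδ
    rw [zero_add]
    set V := ν v ^ 2 with hV
    have hV0 : 0 ≤ V := sq_nonneg _
    set h : ℝ := 2 * ep n * δ / (V + 1) with hh
    have hhp : 0 < h := by positivity
    have h1 := key d (-b) h
    have e1 : d * b + -b * d = 0 := by ring
    have e2 : d * a + -b * c = -(c * b - a * d) := by ring
    rw [e1, e2] at h1
    set y := c * b - a * d with hy
    have h2 : 4 * ep n * h * (|d| * |y|) ≤ 2 * h ^ 2 * V := by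
      refine le_trans ?_ h1
      unfold gg
      simp only [zero_add, zero_sub, mul_zero, abs_zero, abs_mul, abs_neg,
        abs_of_pos hhp]
      have h3 : 2 * |y| ≤ |-y + h * c| + |-y - h * c| := by
        calc 2 * |y| = |(-y + h * c) + (-y - h * c)| := by
              rw [show (-y + h * c) + (-y - h * c) = -(2 * y) by ring, abs_neg, abs_mul]
              norm_num
          _ ≤ _ := abs_add_le _ _
      have h4 := mul_le_mul_of_nonneg_left h3 (show 0 ≤ 2 * ep n * (h * |d|) by positivity)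
      nlinarith [sq_nonneg (h * c), sq_nonneg (h * d)]
    have h3 : 2 * ep n * (|d| * |y|) ≤ h * V := by
      have : (2 * h) * (2 * ep n * (|d| * |y|)) ≤ (2 * h) * (h * V) := by linarith
      exact le_of_mul_le_mul_left this (by positivity)
    have h4 : h * V ≤ 2 * ep n * δ := by
      rw [hh, div_mul_eq_mul_div, div_le_iff₀ (by positivity)]
      nlinarith [mul_pos (mul_pos (show (0 : ℝ) < 2 by norm_num) hn) hδ]
    have h5 : (2 * ep n) * (|d| * |y|) ≤ (2 * ep n) * δ := h3.trans h4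
    exact le_of_mul_le_mul_left h5 (by positivity)
  have h1 : |c| * |c * b - a * d| = 0 := le_antisymm hcy (by positivity)
  have h2 : |d| * |c * b - a * d| = 0 := le_antisymm hdy (by positivity)
  rcases mul_eq_zero.1 h1 with h3 | h3
  · rcases mul_eq_zero.1 h2 with h4 | h4
    · rw [abs_eq_zero.1 h3, abs_eq_zero.1 h4]
      ring
    · linarith [abs_eq_zero.1 h4]
  · linarith [abs_eq_zero.1 h3]

/-- The defect inequality in the limit. -/
theorem defect_lim (hν : ∀ x, Tendsto (fun i => ‖κ i x‖) U (𝓝 (ν x)))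
    (hα : ∀ n x, Tendsto (fun i => ca n (κ i x)) U (𝓝 (α n x)))
    (hβ : ∀ n x, Tendsto (fun i => cb n (κ i x)) U (𝓝 (β n x))) (e f : F) (k : ℕ) :
    ν (e + f) ^ 2 + ν (e - f) ^ 2 - 2 * ν e ^ 2 - 2 * ν f ^ 2 ≤
      (∑ n ∈ Finset.range k, hs (α n e) (β n e) (α n f) (β n f)) +
      (2 * ep k * tt (α k e) (β k e) (α k f) (β k f)
        - 2 * ep (k + 1) * hs (α k e) (β k e) (α k f) (β k f))
      + 2 * ep (k + 1) * (ν e ^ 2 + ν f ^ 2) := by
  have ht : Tendsto (fun i => tt (ca k (κ i e)) (cb k (κ i e)) (ca k (κ i f))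
      (cb k (κ i f))) U (𝓝 (tt (α k e) (β k e) (α k f) (β k f))) :=
    tendsto_tt (hα k e) (hβ k e) (hα k f) (hβ k f)
  have hh : ∀ n, Tendsto (fun i => hs (ca n (κ i e)) (cb n (κ i e)) (ca n (κ i f))
      (cb n (κ i f))) U (𝓝 (hs (α n e) (β n e) (α n f) (β n f))) := fun n =>
    tendsto_hs (hα n e) (hβ n e) (hα n f) (hβ n f)
  have h1 : Tendsto (fun i => ‖κ i e + κ i f‖ ^ 2 + ‖κ i e - κ i f‖ ^ 2 - 2 * ‖κ i e‖ ^ 2
      - 2 * ‖κ i f‖ ^ 2) U (𝓝 (ν (e + f) ^ 2 + ν (e - f) ^ 2 - 2 * ν e ^ 2 - 2 * ν f ^ 2)) := by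
    have := ((((hν (e + f)).pow 2).add ((hν (e - f)).pow 2)).sub
      (((hν e).pow 2).const_mul 2)).sub (((hν f).pow 2).const_mul 2)
    simpa only [map_add, map_sub] using this
  have h2 : Tendsto (fun i => (∑ n ∈ Finset.range k, hs (ca n (κ i e)) (cb n (κ i e))
      (ca n (κ i f)) (cb n (κ i f))) +
      (2 * ep k * tt (ca k (κ i e)) (cb k (κ i e)) (ca k (κ i f)) (cb k (κ i f))
        - 2 * ep (k + 1) * hs (ca k (κ i e)) (cb k (κ i e)) (ca k (κ i f)) (cb k (κ i f)))
      + 2 * ep (k + 1) * (‖κ i e‖ ^ 2 + ‖κ i f‖ ^ 2)) U (𝓝 (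
      (∑ n ∈ Finset.range k, hs (α n e) (β n e) (α n f) (β n f)) +
      (2 * ep k * tt (α k e) (β k e) (α k f) (β k f)
        - 2 * ep (k + 1) * hs (α k e) (β k e) (α k f) (β k f))
      + 2 * ep (k + 1) * (ν e ^ 2 + ν f ^ 2))) := by
    apply Tendsto.add
    · apply Tendsto.add
      · exact tendsto_finsetSum (Finset.range k) (fun n _ => hh n)
      · exact (ht.const_mul (2 * ep k)).sub ((hh k).const_mul (2 * ep (k + 1)))
    · exact (((hν e).pow 2).add ((hν f).pow 2)).const_mul (2 * ep (k + 1))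
  exact le_of_tendsto_of_tendsto' h1 h2 (fun i => defect_le (κ i e) (κ i f) k)

omit [Module ℝ F] in
theorem block_algebra {k : ℕ} {a a' b b' : ℝ} (hga : gg (ep k) a a' ≤ 1)
    (hgb : gg (ep k) b b' ≤ 1)
    (hdef : 4 * ep k ≤ 2 * ep k * tt a a' b b' - 2 * ep (k + 1) * hs a a' b b'
      + 2 * ep (k + 1) * 2) :
    a * a' = 0 ∧ b * b' = 0 ∧ a ^ 2 + a' ^ 2 = 1 ∧ b ^ 2 + b' ^ 2 = 1 ∧
      a * b' - a' * b ≠ 0 := by
  have hk := ep_pos k
  have hk1 := ep_pos (k + 1)
  have hlt := ep_lt k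
  have htt := tt_le_hs a a' b b'
  have hsa := sq_le_gg hk.le a a'
  have hsb := sq_le_gg hk.le b b'
  have hhs2 : hs a a' b b' ≤ 2 := by
    unfold hs
    linarith
  have hhs : hs a a' b b' = 2 := by
    apply le_antisymm hhs2
    by_contra hcon
    push Not at hcon
    have h1 : 2 * ep k * tt a a' b b' ≤ 2 * ep k * hs a a' b b' :=
      mul_le_mul_of_nonneg_left htt (by positivity)
    nlinarith
  have httv : 2 ≤ tt a a' b b' := by
    rw [hhs] at hdef
    by_contra hcon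
    push Not at hcon
    nlinarith
  have h1 : a ^ 2 + a' ^ 2 = 1 := by
    unfold hs at hhs
    linarith
  have h2 : b ^ 2 + b' ^ 2 = 1 := by
    unfold hs at hhs
    linarith
  have h3 : a * a' = 0 := by
    unfold gg at hga
    have h4 : 2 * ep k * |a * a'| ≤ 0 := by linarith
    have h5 : |a * a'| ≤ 0 := by
      by_contra hcon
      push Not at hcon
      have : 0 < 2 * ep k * |a * a'| := by positivity
      linarith
    exact abs_nonpos_iff.1 h5
  have h4 : b * b' = 0 := by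
    unfold gg at hgb
    have h4 : 2 * ep k * |b * b'| ≤ 0 := by linarith
    have h5 : |b * b'| ≤ 0 := by
      by_contra hcon
      push Not at hcon
      have : 0 < 2 * ep k * |b * b'| := by positivity
      linarith
    exact abs_nonpos_iff.1 h5
  refine ⟨h3, h4, h1, h2, ?_⟩
  intro h5
  unfold tt at httv
  have e1 : (a + b) * (a' + b') = 0 := by
    have e3 : a * b' = 0 := by
      have e4 : (a * b') * (a * b') = 0 := by
        have e5 : a * b' = a' * b := by linarith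
        calc (a * b') * (a * b') = (a * b') * (a' * b) := by rw [← e5]
          _ = (a * a') * (b * b') := by ring
          _ = 0 := by rw [h3, zero_mul]
      exact mul_self_eq_zero.1 e4
    have e5 : a' * b = 0 := by linarith
    linear_combination h3 + h4 + e3 + e5
  have e2 : (a - b) * (a' - b') = 0 := by
    linear_combination (-1 : ℝ) * e1 + 2 * h3 + 2 * h4
  rw [h3, h4, e1, e2] at httv
  norm_num at httv

/-- Rigidity of one block. -/
theorem block_rigid (hν : ∀ x, Tendsto (fun i => ‖κ i x‖) U (𝓝 (ν x)))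
    (hα : ∀ n x, Tendsto (fun i => ca n (κ i x)) U (𝓝 (α n x)))
    (hβ : ∀ n x, Tendsto (fun i => cb n (κ i x)) U (𝓝 (β n x))) {e f : F} {k : ℕ}
    (hef : ∀ s t : ℝ, ν (s • e + t • f) ^ 2 = gg (ep k) s t)
    (h0 : ∀ n < k, (α n e = 0 ∧ β n e = 0) ∧ (α n f = 0 ∧ β n f = 0)) :
    ∃ σ : SP, (α k e = m11 σ ∧ β k e = m21 σ ∧ α k f = m12 σ ∧ β k f = m22 σ) ∧
      Tendsto (fun i => κ i e) U (𝓝 (pt k (m11 σ) (m21 σ))) ∧
      Tendsto (fun i => κ i f) U (𝓝 (pt k (m12 σ) (m22 σ))) := by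
  have he : ν e ^ 2 = 1 := by
    have := hef 1 0
    rw [one_smul, zero_smul, add_zero] at this
    rw [this]
    simp [gg]
  have hf : ν f ^ 2 = 1 := by
    have := hef 0 1
    rw [one_smul, zero_smul, zero_add] at this
    rw [this]
    simp [gg]
  have hp : ν (e + f) ^ 2 = 2 + 2 * ep k := by
    have := hef 1 1
    rw [one_smul, one_smul] at this
    rw [this]
    simp [gg]
    norm_num
  have hm : ν (e - f) ^ 2 = 2 + 2 * ep k := by
    have := hef 1 (-1)
    rw [one_smul, neg_one_smul, ← sub_eq_add_neg] at this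
    rw [this]
    simp [gg]
    norm_num
  -- block norms
  have hga : gg (ep k) (α k e) (β k e) ≤ 1 := by
    rw [← he]
    exact le_of_tendsto_of_tendsto' (tendsto_gg (ep k) (hα k e) (hβ k e)) ((hν e).pow 2)
      (fun i => gg_le_norm_sq _ _)
  have hgb : gg (ep k) (α k f) (β k f) ≤ 1 := by
    rw [← hf]
    exact le_of_tendsto_of_tendsto' (tendsto_gg (ep k) (hα k f) (hβ k f)) ((hν f).pow 2)
      (fun i => gg_le_norm_sq _ _)
  -- the defect inequality in the limit
  have hdef := defect_lim hν hα hβ e f k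
  have h4 : ∑ n ∈ Finset.range k, hs (α n e) (β n e) (α n f) (β n f) = 0 := by
    apply Finset.sum_eq_zero
    intro n hn
    obtain ⟨⟨h5, h6⟩, h7, h8⟩ := h0 n (Finset.mem_range.1 hn)
    rw [h5, h6, h7, h8]
    simp [hs]
  rw [h4, he, hf, hp, hm] at hdef
  obtain ⟨h3, h4, h1, h2, h5⟩ := block_algebra hga hgb (by linarith)
  obtain ⟨σ, hσ1, hσ2, hσ3, hσ4⟩ := exists_sp h3 h4 h1 h2 h5
  refine ⟨σ, ⟨hσ1.symm, hσ2.symm, hσ3.symm, hσ4.symm⟩, ?_, ?_⟩
  · apply tendsto_of_block (hν e) (by rw [hσ1]; exact hα k e) (by rw [hσ2]; exact hβ k e)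
    rw [hσ1, hσ2, he]
    unfold gg
    rw [h3, h1]
    simp
  · apply tendsto_of_block (hν f) (by rw [hσ3]; exact hα k f) (by rw [hσ4]; exact hβ k f)
    rw [hσ3, hσ4, hf]
    unfold gg
    rw [h4, h2]
    simp

/-- One step of the rigidity argument. -/
theorem step (hν : ∀ x, Tendsto (fun i => ‖κ i x‖) U (𝓝 (ν x)))
    (hα : ∀ n x, Tendsto (fun i => ca n (κ i x)) U (𝓝 (α n x)))
    (hβ : ∀ n x, Tendsto (fun i => cb n (κ i x)) U (𝓝 (β n x))) {e f : ℕ → F} {k : ℕ}
    (hef : ∀ s t : ℝ, ν (s • e k + t • f k) ^ 2 = gg (ep k) s t)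
    (hort : ∀ n < k, ∀ u, (u = e n ∨ u = f n) → ∀ v, (v = e k ∨ v = f k) →
      ∀ s t : ℝ, ν (s • u + t • v) ^ 2 = s ^ 2 * ν u ^ 2 + t ^ 2 * ν v ^ 2)
    (hdet : ∀ n < k, α n (e n) * β n (f n) - α n (f n) * β n (e n) ≠ 0) :
    ∃ σ : SP, (α k (e k) = m11 σ ∧ β k (e k) = m21 σ ∧ α k (f k) = m12 σ ∧ β k (f k) = m22 σ) ∧
      Tendsto (fun i => κ i (e k)) U (𝓝 (pt k (m11 σ) (m21 σ))) ∧
      Tendsto (fun i => κ i (f k)) U (𝓝 (pt k (m12 σ) (m22 σ))) := by
  apply block_rigid hν hα hβ hef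
  have hz : ∀ n < k, ∀ v, (v = e k ∨ v = f k) → α n v = 0 ∧ β n v = 0 := by
    intro n hn v hv
    have h1 := par hν hα hβ (hort n hn (e n) (Or.inl rfl) v hv) n
    have h2 := par hν hα hβ (hort n hn (f n) (Or.inr rfl) v hv) n
    have h3 := hdet n hn
    constructor
    · have : α n v * (α n (e n) * β n (f n) - α n (f n) * β n (e n)) = 0 := by
        linear_combination α n (e n) * h2 - α n (f n) * h1
      exact (mul_eq_zero.1 this).resolve_right h3
    · have : β n v * (α n (e n) * β n (f n) - α n (f n) * β n (e n)) = 0 := by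
        linear_combination β n (e n) * h2 - β n (f n) * h1
      exact (mul_eq_zero.1 this).resolve_right h3
  intro n hn
  exact ⟨hz n hn _ (Or.inl rfl), hz n hn _ (Or.inr rfl)⟩

theorem det_ne (σ : SP) : m11 σ * m22 σ - m12 σ * m21 σ ≠ 0 := by
  have h1 := sg_mul_self σ.2.1
  have h2 := sg_mul_self σ.2.2
  unfold m11 m12 m21 m22
  intro h
  split_ifs at h
  · have h3 : sg σ.2.2 * sg σ.2.1 = 0 := by linarith
    have : (1 : ℝ) = 0 := by
      calc (1 : ℝ) = (sg σ.2.1 * sg σ.2.1) * (sg σ.2.2 * sg σ.2.2) := by rw [h1, h2, one_mul]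
        _ = (sg σ.2.2 * sg σ.2.1) * (sg σ.2.2 * sg σ.2.1) := by ring
        _ = 0 := by rw [h3, zero_mul]
    exact one_ne_zero this
  · have h3 : sg σ.2.1 * sg σ.2.2 = 0 := by linarith
    have : (1 : ℝ) = 0 := by
      calc (1 : ℝ) = (sg σ.2.1 * sg σ.2.1) * (sg σ.2.2 * sg σ.2.2) := by rw [h1, h2, one_mul]
        _ = (sg σ.2.1 * sg σ.2.2) * (sg σ.2.1 * sg σ.2.2) := by ring
        _ = 0 := by rw [h3, zero_mul]
    exact one_ne_zero this

end

end Pool.Agent.R278.LS
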