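import Pool.Agent.R278.LS.Cofinal

/-!
# Separability, dimension and orbits
-/

open Set Filter Topology

namespace Pool.Agent.R278.LS

theorem norm_ve (k : ℕ) : ‖ve k‖ = 1 := by
  have : ‖ve k‖ ^ 2 = 1 := by
    rw [ve, norm_pt_sq]
    simp [gg]
  nlinarith [norm_nonneg (ve k)]

theorem separable_XX : TopologicalSpace.SeparableSpace XX := by
  rw [← TopologicalSpace.isSeparable_univ_iff]
  have h1 : TopologicalSpace.IsSeparable (Set.range ve ∪ Set.range vf) :=
    ((Set.countable_range ve).union (Set.countable_range vf)).isSeparable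
  have h2 : TopologicalSpace.IsSeparable
      ((Submodule.span ℝ (Set.range ve ∪ Set.range vf) : Submodule ℝ XX) : Set XX) :=
    h1.span
  refine h2.closure.mono ?_
  intro x _
  refine mem_closure_of_tendsto (tendsto_tr x) ?_
  filter_upwards with m
  rw [tr_eq_comb]
  apply Submodule.sum_mem
  intro k _
  apply Submodule.add_mem
  · exact Submodule.smul_mem _ _ (Submodule.subset_span (Or.inl ⟨k, rfl⟩))
  · exact Submodule.smul_mem _ _ (Submodule.subset_span (Or.inr ⟨k, rfl⟩))

theorem linearIndependent_ve : LinearIndependent ℝ ve := by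
  rw [linearIndependent_iff']
  intro s c hc i hi
  have h1 := congrArg (ca i) hc
  rw [map_sum, map_zero, Finset.sum_eq_single i] at h1
  · rw [map_smul, ve, ca_pt_self, smul_eq_mul, mul_one] at h1
    exact h1
  · intro j _ hj
    rw [map_smul, ve, ca_pt_ne hj.symm, smul_zero]
  · intro h
    exact absurd hi h

theorem not_finiteDimensional_XX : ¬ FiniteDimensional ℝ XX := by
  intro h
  exact Module.Finite.not_linearIndependent_of_infinite ve linearIndependent_ve

/-- The orbits of the vectors `ve k` are far apart. -/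
theorem orbit_sep {j k : ℕ} (hjk : j ≠ k) (T S : XX ≃ₗᵢ[ℝ] XX) : 1 ≤ ‖T (ve j) - S (ve k)‖ := by
  obtain ⟨s, t, h1⟩ := isometry_block T j
  obtain ⟨s', t', h2⟩ := isometry_block S k
  have hd : Disj (T (ve j)) (S (ve k)) := by
    intro n
    by_cases hn : n = j
    · right
      rw [h2]
      exact pt_apply_ne (by omega) _ _
    · left
      rw [h1]
      exact pt_apply_ne hn _ _
  have h3 := norm_sq_comb_of_disj hd 1 (-1)
  rw [one_smul, neg_one_smul, ← sub_eq_add_neg, T.norm_map, S.norm_map, norm_ve, norm_ve] at h3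
  nlinarith [norm_nonneg (T (ve j) - S (ve k))]

end Pool.Agent.R278.LS
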