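import Pool.Agent.R278.LS.Charac

/-!
# The approximation property implies isometry with the space
-/

open Set Filter Topology

namespace Pool.Agent.R278.LS

variable {Y : Type*} [NormedAddCommGroup Y] [NormedSpace ℝ Y]

theorem iso_of_approx [CompleteSpace Y] (hY : Approx Y) (d : ℕ → Y) (hd : DenseRange d) :
    Nonempty (XX ≃ₗᵢ[ℝ] Y) := by
  let St := {s : ℕ × (XX →ₗ[ℝ] Y) // Good s.1 s.2}
  have hstep : ∀ (k : ℕ) (s : St), ∃ (s' : St) (σ : ℕ → SP), s.1.1 < s'.1.1 ∧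
      (∀ x ∈ FF s.1.1, ‖s.1.2 x - s'.1.2 (act σ x)‖ ≤ 3 * (1 / 2) ^ s.1.1 * ‖x‖) ∧
      ∀ l ≤ k, ∃ w ∈ FF s'.1.1, ‖d l - s'.1.2 w‖ < (1 / 2) ^ k := by
    intro k s
    obtain ⟨m', j', σ, h1, h2, h3, h4⟩ := step_lemma hY d k s.1.1 s.1.2 s.2
    exact ⟨⟨(m', j'), h2⟩, σ, h1, h3, h4⟩
  obtain ⟨m0, -, j0, hj0, -⟩ := hY ∅ Set.finite_empty 1 one_pos 0
  choose nx sg h1 h2 h3 using hstep
  let S : ℕ → St := fun k => Nat.rec ⟨(m0, j0), hj0⟩ (fun k s => nx k s) k
  have hS : ∀ k, S (k + 1) = nx k (S k) := fun _ => rfl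
  let M : ℕ → ℕ := fun k => (S k).1.1
  let J' : ℕ → XX →ₗ[ℝ] Y := fun k => (S k).1.2
  let σ : ℕ → ℕ → SP := fun k => sg k (S k)
  have hM : ∀ k, M k < M (k + 1) := fun k => h1 k (S k)
  have hMmono : StrictMono M := strictMono_nat_of_lt_succ hM
  have hMk : ∀ k, k ≤ M k := hMmono.id_le
  have hgood : ∀ k, Good (M k) (J' k) := fun k => (S k).2
  have hstep2 : ∀ k, ∀ x ∈ FF (M k), ‖J' k x - J' (k + 1) (act (σ k) x)‖ ≤
      3 * (1 / 2) ^ M k * ‖x‖ := fun k => h2 k (S k)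
  have hstep3 : ∀ k, ∀ l ≤ k, ∃ w ∈ FF (M (k + 1)), ‖d l - J' (k + 1) w‖ < (1 / 2) ^ k :=
    fun k => h3 k (S k)
  let T : ℕ → (XX ≃ₗᵢ[ℝ] XX) := fun k => Nat.rec (LinearIsometryEquiv.refl ℝ XX)
    (fun k T => T.trans (act (σ k))) k
  have hT : ∀ k x, T (k + 1) x = act (σ k) (T k x) := fun _ _ => rfl
  have hTtr : ∀ k n x, tr n (T k x) = T k (tr n x) := by
    intro k
    induction k with
    | zero =>
      intro n x
      rfl
    | succ k ih =>
      intro n x
      rw [hT, hT, tr_act, ih]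
  have hTF : ∀ k n x, x ∈ FF n → T k x ∈ FF n := by
    intro k n x hx
    rw [mem_FF] at hx ⊢
    rw [hTtr, hx]
  let JJ : ℕ → XX →ₗ[ℝ] Y := fun k => J' k ∘ₗ (T k).toLinearEquiv.toLinearMap ∘ₗ
    (tr (M k)).toLinearMap
  have hJJ : ∀ k x, JJ k x = J' k (T k (tr (M k) x)) := fun _ _ => rfl
  have hJJF : ∀ k, ∀ x ∈ FF (M k), JJ k x = J' k (T k x) := by
    intro k x hx
    rw [hJJ, mem_FF.1 hx]
  have hbd : ∀ k x, ‖JJ k x‖ ≤ 2 * ‖x‖ := by
    intro k x
    rw [hJJ]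
    refine ((hgood k).norm_le_two (hTF k _ _ (tr_mem_FF _ _))).trans ?_
    rw [(T k).norm_map]
    exact mul_le_mul_of_nonneg_left (norm_tr_le _ _) (by norm_num)
  have hdiff : ∀ k, ∀ x ∈ FF (M k), ‖JJ k x - JJ (k + 1) x‖ ≤ 3 * (1 / 2) ^ k * ‖x‖ := by
    intro k x hx
    rw [hJJF k x hx, hJJF (k + 1) x (FF_mono (hM k).le hx), hT]
    refine (hstep2 k (T k x) (hTF k _ _ hx)).trans ?_
    rw [(T k).norm_map]
    apply mul_le_mul_of_nonneg_right _ (norm_nonneg _)
    apply mul_le_mul_of_nonneg_left _ (by norm_num)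
    exact pow_le_pow_of_le_one (by norm_num) (by norm_num) (hMk k)
  have hgeo : ∀ k, ∀ x ∈ FF (M k), ∀ n, dist (JJ (n + k) x) (JJ (n + 1 + k) x) ≤
      (6 * (1 / 2) ^ k * ‖x‖) / 2 / 2 ^ n := by
    intro k x hx n
    rw [dist_eq_norm]
    have e1 : n + 1 + k = (n + k) + 1 := by ring
    rw [e1]
    refine (hdiff (n + k) x (FF_mono (hMmono.monotone (by omega)) hx)).trans (le_of_eq ?_)
    rw [pow_add, one_div, inv_pow, inv_pow]
    ring
  have hcau1 : ∀ k, ∀ x ∈ FF (M k), CauchySeq (fun l => JJ l x) := by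
    intro k x hx
    have h4 := cauchySeq_of_le_geometric_two (hgeo k x hx)
    exact (cauchySeq_shift k).1 h4
  have hcau : ∀ x, CauchySeq (fun l => JJ l x) := by
    intro x
    rw [Metric.cauchySeq_iff']
    intro ε hε
    have h4 : ∀ᶠ k in atTop, ‖x - tr (M k) x‖ < ε / 8 := by
      have h5 := (tendsto_tr x).comp hMmono.tendsto_atTop
      have h6 := (h5.const_sub x).norm
      rw [sub_self, norm_zero] at h6
      exact h6.eventually_lt_const (by positivity)
    obtain ⟨k, hk⟩ := h4.exists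
    obtain ⟨N, hN⟩ := Metric.cauchySeq_iff'.1 (hcau1 k (tr (M k) x) (tr_mem_FF _ _)) (ε / 4)
      (by positivity)
    refine ⟨N, fun n hn => ?_⟩
    have h7 := hN n hn
    rw [dist_eq_norm] at h7 ⊢
    have e1 : JJ n x - JJ N x = JJ n (x - tr (M k) x) - JJ N (x - tr (M k) x)
        + (JJ n (tr (M k) x) - JJ N (tr (M k) x)) := by
      rw [map_sub, map_sub]
      abel
    rw [e1]
    calc ‖JJ n (x - tr (M k) x) - JJ N (x - tr (M k) x)
        + (JJ n (tr (M k) x) - JJ N (tr (M k) x))‖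
        ≤ ‖JJ n (x - tr (M k) x)‖ + ‖JJ N (x - tr (M k) x)‖
          + ‖JJ n (tr (M k) x) - JJ N (tr (M k) x)‖ :=
          (norm_add_le _ _).trans (add_le_add (norm_sub_le _ _) le_rfl)
      _ < ε := by linarith [hbd n (x - tr (M k) x), hbd N (x - tr (M k) x)]
  have hlim : ∀ x, ∃ y, Tendsto (fun l => JJ l x) atTop (𝓝 y) := fun x =>
    cauchySeq_tendsto_of_complete (hcau x)
  choose J hJ using hlim
  have hfar : ∀ k, ∀ x ∈ FF (M k), ‖JJ k x - J x‖ ≤ 6 * (1 / 2) ^ k * ‖x‖ := by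
    intro k x hx
    have h4 := dist_le_of_le_geometric_two_of_tendsto₀ (hgeo k x hx)
      ((hJ x).comp (tendsto_add_atTop_nat k))
    rw [zero_add, dist_eq_norm] at h4
    exact h4
  have hnorm : ∀ x, ‖J x‖ = ‖x‖ := by
    intro x
    have h4 : Tendsto (fun l => ‖tr (M l) x‖) atTop (𝓝 ‖x‖) :=
      ((tendsto_tr x).comp hMmono.tendsto_atTop).norm
    have h5 : Tendsto (fun l => del (M l) / 8) atTop (𝓝 0) := by
      have h6 : Tendsto (fun l : ℕ => (1 / 2 : ℝ) ^ l) atTop (𝓝 0) :=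
        tendsto_pow_atTop_nhds_zero_of_lt_one (by norm_num) (by norm_num)
      refine squeeze_zero (fun l => ?_) (fun l => ?_) h6
      · have := del_pos (M l)
        positivity
      · have h7 := del_le (M l)
        have h8 : (1 / 2 : ℝ) ^ M l ≤ (1 / 2) ^ l :=
          pow_le_pow_of_le_one (by norm_num) (by norm_num) (hMk l)
        have h9 := del_pos (M l)
        linarith
    have h6 : Tendsto (fun l => (1 + del (M l) / 8)⁻¹ * ‖tr (M l) x‖) atTop (𝓝 ‖x‖) := by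
      have := ((h5.const_add 1).inv₀ (by norm_num)).mul h4
      simpa using this
    have h7 : Tendsto (fun l => (1 + del (M l) / 8) * ‖tr (M l) x‖) atTop (𝓝 ‖x‖) := by
      have := (h5.const_add 1).mul h4
      simpa using this
    have h8 : Tendsto (fun l => ‖JJ l x‖) atTop (𝓝 ‖x‖) := by
      refine tendsto_of_tendsto_of_tendsto_of_le_of_le h6 h7 ?_ ?_
      · intro l
        have := (hgood l (T l (tr (M l) x)) (hTF l _ _ (tr_mem_FF _ _))).1
        rw [(T l).norm_map] at this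
        exact this
      · intro l
        have := (hgood l (T l (tr (M l) x)) (hTF l _ _ (tr_mem_FF _ _))).2
        rw [(T l).norm_map] at this
        exact this
    exact tendsto_nhds_unique (hJ x).norm h8
  let Jl : XX →ₗᵢ[ℝ] Y :=
    { toFun := J
      map_add' := by
        intro x y
        refine tendsto_nhds_unique (hJ (x + y)) (((hJ x).add (hJ y)).congr ?_)
        intro l
        rw [map_add]
      map_smul' := by
        intro c x
        refine tendsto_nhds_unique (hJ (c • x)) (((hJ x).const_smul c).congr ?_)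
        intro l
        rw [map_smul]
      norm_map' := hnorm }
  have hJl : ∀ x, Jl x = J x := fun _ => rfl
  have hclosed : IsClosed (Set.range Jl) := Jl.isometry.isClosedEmbedding.isClosed_range
  have hdl : ∀ l, d l ∈ Set.range Jl := by
    intro l
    rw [← hclosed.closure_eq, Metric.mem_closure_iff]
    intro ε hε
    have h4 : Tendsto (fun k : ℕ => (1 / 2 : ℝ) ^ k * (1 + 12 * (‖d l‖ + 1))) atTop (𝓝 0) := by
      have h6 : Tendsto (fun l : ℕ => (1 / 2 : ℝ) ^ l) atTop (𝓝 0) :=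
        tendsto_pow_atTop_nhds_zero_of_lt_one (by norm_num) (by norm_num)
      simpa using h6.mul_const (1 + 12 * (‖d l‖ + 1))
    obtain ⟨k, hk1, hk2⟩ := ((h4.eventually_lt_const hε).and (eventually_ge_atTop l)).exists
    obtain ⟨w, hw, hw2⟩ := hstep3 k l hk2
    obtain ⟨z, hTz⟩ := (T (k + 1)).surjective w
    have hz : z ∈ FF (M (k + 1)) := by
      rw [mem_FF]
      apply (T (k + 1)).injective
      exact ((hTtr (k + 1) (M (k + 1)) z).symm.trans
        ((congrArg (tr (M (k + 1))) hTz).trans (mem_FF.1 hw))).trans hTz.symm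
    have hzn : ‖z‖ = ‖w‖ := by
      rw [← hTz]
      exact ((T (k + 1)).norm_map z).symm
    have h5 := hfar (k + 1) z hz
    have h5a := hJJF (k + 1) z hz
    rw [hTz] at h5a
    rw [h5a] at h5
    have h6 : ‖w‖ ≤ 2 * (‖d l‖ + 1) := by
      refine ((hgood (k + 1)).le_two hw).trans ?_
      have h7 : ‖J' (k + 1) w‖ ≤ ‖d l‖ + ‖d l - J' (k + 1) w‖ := by
        calc ‖J' (k + 1) w‖ = ‖d l - (d l - J' (k + 1) w)‖ := by rw [sub_sub_cancel]
          _ ≤ _ := norm_sub_le _ _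
      have h8 : (1 / 2 : ℝ) ^ k ≤ 1 := pow_le_one₀ (by norm_num) (by norm_num)
      linarith
    refine ⟨Jl z, ⟨z, rfl⟩, ?_⟩
    rw [dist_eq_norm, hJl]
    refine lt_of_le_of_lt ?_ hk1
    have h7 : ‖d l - J z‖ ≤ ‖d l - J' (k + 1) w‖ + ‖J' (k + 1) w - J z‖ := by
      calc ‖d l - J z‖ = ‖(d l - J' (k + 1) w) + (J' (k + 1) w - J z)‖ := by
            rw [sub_add_sub_cancel]
        _ ≤ _ := norm_add_le _ _
    have h8 : (6 * (1 / 2 : ℝ) ^ (k + 1) * ‖z‖) ≤ (1 / 2 : ℝ) ^ k * (12 * (‖d l‖ + 1)) := by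
      rw [hzn, pow_succ]
      have h9 : (0 : ℝ) ≤ (1 / 2) ^ k := by positivity
      nlinarith [mul_le_mul_of_nonneg_left h6 h9, norm_nonneg (d l)]
    rw [mul_add, mul_one]
    linarith
  have hsurj : Function.Surjective Jl := by
    intro y
    have h4 : closure (Set.range d) ⊆ Set.range Jl :=
      closure_minimal (by rintro _ ⟨l, rfl⟩; exact hdl l) hclosed
    exact h4 (hd y)
  exact ⟨LinearIsometryEquiv.ofSurjective Jl hsurj⟩

end Pool.Agent.R278.LS
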