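import Pool.Agent.R278.LS.Final

/-!
# The space is not isometric to Lebesgue spaces or to the Gurarii space
-/

open Set Filter Topology MeasureTheory
open scoped ENNReal

namespace Pool.Agent.R278.LS

theorem hasSum_Q (x : XX) : Summable (fun n => ca n x ^ 2 + cb n x ^ 2) := by
  refine Summable.of_nonneg_of_le (fun n => by positivity) (fun n => ?_) (hasSum_gg x).summable
  exact sq_le_gg (ep_pos n).le _ _

/-- The Hilbertian part of the squared norm. -/
noncomputable def QQ (x : XX) : ℝ := ∑' n, (ca n x ^ 2 + cb n x ^ 2)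

theorem QQ_le (x : XX) : QQ x ≤ ‖x‖ ^ 2 :=
  hasSum_le (fun n => sq_le_gg (ep_pos n).le _ _) (hasSum_Q x).hasSum (hasSum_gg x)

theorem le_QQ (x : XX) : ‖x‖ ^ 2 ≤ 3 / 2 * QQ x := by
  refine hasSum_le (fun n => ?_) (hasSum_gg x) ((hasSum_Q x).hasSum.mul_left (3 / 2))
  unfold gg
  have h1 : |ca n x * cb n x| ≤ (ca n x ^ 2 + cb n x ^ 2) / 2 := by
    apply abs_le.2
    constructor
    · nlinarith [sq_nonneg (ca n x + cb n x)]
    · nlinarith [sq_nonneg (ca n x - cb n x)]
  have h2 := ep_le n
  have h3 := ep_pos n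
  have h4 : 2 * ep n * |ca n x * cb n x| ≤ 1 * |ca n x * cb n x| :=
    mul_le_mul_of_nonneg_right (by linarith) (abs_nonneg _)
  linarith

theorem QQ_par (x y : XX) : QQ (x + y) + QQ (x - y) = 2 * QQ x + 2 * QQ y := by
  have h1 := (hasSum_Q (x + y)).hasSum.add (hasSum_Q (x - y)).hasSum
  have h2 := ((hasSum_Q x).hasSum.mul_left 2).add ((hasSum_Q y).hasSum.mul_left 2)
  have e : (fun n => ca n (x + y) ^ 2 + cb n (x + y) ^ 2 + (ca n (x - y) ^ 2 + cb n (x - y) ^ 2))
      = fun n => 2 * (ca n x ^ 2 + cb n x ^ 2) + 2 * (ca n y ^ 2 + cb n y ^ 2) := by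
    funext n
    simp only [map_add, map_sub]
    ring
  rw [e] at h1
  exact h1.unique h2

/-- A choice of signs. -/
def IsSign (s : ℕ → ℝ) : Prop := ∀ i, s i = 1 ∨ s i = -1

theorem exists_sign_le (x : ℕ → XX) (n : ℕ) : ∃ s : ℕ → ℝ, IsSign s ∧
    QQ (∑ i ∈ Finset.range n, s i • x i) ≤ ∑ i ∈ Finset.range n, QQ (x i) := by
  induction n with
  | zero =>
    refine ⟨fun _ => 1, fun _ => Or.inl rfl, ?_⟩
    simp only [Finset.range_zero, Finset.sum_empty]
    have := QQ_le (0 : XX)
    simpa using this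
  | succ n ih =>
    obtain ⟨s, hs, hle⟩ := ih
    have h1 := QQ_par (∑ i ∈ Finset.range n, s i • x i) (x n)
    have h2 : ∀ c : ℝ, ∑ i ∈ Finset.range (n + 1), (Function.update s n c) i • x i
        = ∑ i ∈ Finset.range n, s i • x i + c • x n := by
      intro c
      rw [Finset.sum_range_succ, Function.update_self]
      congr 1
      apply Finset.sum_congr rfl
      intro i hi
      rw [Function.update_of_ne (Finset.mem_range.1 hi).ne]
    by_cases h3 : QQ (∑ i ∈ Finset.range n, s i • x i + x n) ≤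
        QQ (∑ i ∈ Finset.range n, s i • x i) + QQ (x n)
    · refine ⟨Function.update s n 1, ?_, ?_⟩
      · intro i
        by_cases hi : i = n
        · subst hi
          rw [Function.update_self]
          exact Or.inl rfl
        · rw [Function.update_of_ne hi]
          exact hs i
      · rw [h2, one_smul, Finset.sum_range_succ]
        linarith
    · refine ⟨Function.update s n (-1), ?_, ?_⟩
      · intro i
        by_cases hi : i = n
        · subst hi
          rw [Function.update_self]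
          exact Or.inr rfl
        · rw [Function.update_of_ne hi]
          exact hs i
      · rw [h2, neg_one_smul, ← sub_eq_add_neg, Finset.sum_range_succ]
        push Not at h3
        linarith

theorem exists_sign_ge (x : ℕ → XX) (n : ℕ) : ∃ s : ℕ → ℝ, IsSign s ∧
    ∑ i ∈ Finset.range n, QQ (x i) ≤ QQ (∑ i ∈ Finset.range n, s i • x i) := by
  induction n with
  | zero =>
    refine ⟨fun _ => 1, fun _ => Or.inl rfl, ?_⟩
    simp only [Finset.range_zero, Finset.sum_empty]
    exact tsum_nonneg (fun n => by positivity)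
  | succ n ih =>
    obtain ⟨s, hs, hle⟩ := ih
    have h1 := QQ_par (∑ i ∈ Finset.range n, s i • x i) (x n)
    have h2 : ∀ c : ℝ, ∑ i ∈ Finset.range (n + 1), (Function.update s n c) i • x i
        = ∑ i ∈ Finset.range n, s i • x i + c • x n := by
      intro c
      rw [Finset.sum_range_succ, Function.update_self]
      congr 1
      apply Finset.sum_congr rfl
      intro i hi
      rw [Function.update_of_ne (Finset.mem_range.1 hi).ne]
    by_cases h3 : QQ (∑ i ∈ Finset.range n, s i • x i) + QQ (x n) ≤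
        QQ (∑ i ∈ Finset.range n, s i • x i + x n)
    · refine ⟨Function.update s n 1, ?_, ?_⟩
      · intro i
        by_cases hi : i = n
        · subst hi
          rw [Function.update_self]
          exact Or.inl rfl
        · rw [Function.update_of_ne hi]
          exact hs i
      · rw [h2, one_smul, Finset.sum_range_succ]
        linarith
    · refine ⟨Function.update s n (-1), ?_, ?_⟩
      · intro i
        by_cases hi : i = n
        · subst hi
          rw [Function.update_self]
          exact Or.inr rfl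
        · rw [Function.update_of_ne hi]
          exact hs i
      · rw [h2, neg_one_smul, ← sub_eq_add_neg, Finset.sum_range_succ]
        push Not at h3
        linarith

/-- Vectors with many sign-symmetric sums force the exponent two. -/
theorem exponent_two {Z : Type*} [NormedAddCommGroup Z] [NormedSpace ℝ Z] (J : Z ≃ₗᵢ[ℝ] XX)
    {r : ℝ} (hr : 0 < r)
    (h : ∀ n : ℕ, 0 < n → ∃ f : ℕ → Z, (∀ i < n, ‖f i‖ = 1) ∧
      ∀ s : ℕ → ℝ, IsSign s → ‖∑ i ∈ Finset.range n, s i • f i‖ = (n : ℝ) ^ (1 / r)) : r = 2 := by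
  have key : ∀ n : ℕ, 0 < n → ((n : ℝ) ^ (1 / r)) ^ 2 ≤ 3 / 2 * n ∧
      2 / 3 * (n : ℝ) ≤ ((n : ℝ) ^ (1 / r)) ^ 2 := by
    intro n hn
    obtain ⟨f, hf1, hf2⟩ := h n hn
    have hJ : ∀ s : ℕ → ℝ, IsSign s →
        ‖∑ i ∈ Finset.range n, s i • J (f i)‖ = (n : ℝ) ^ (1 / r) := by
      intro s hs
      rw [← hf2 s hs, ← J.norm_map, map_sum]
      congr 1
      apply Finset.sum_congr rfl
      intro i _
      rw [map_smul]
    have hJ1 : ∀ i < n, ‖J (f i)‖ = 1 := fun i hi => by rw [J.norm_map, hf1 i hi]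
    constructor
    · obtain ⟨s, hs, hle⟩ := exists_sign_le (fun i => J (f i)) n
      rw [← hJ s hs]
      refine (le_QQ _).trans ?_
      apply mul_le_mul_of_nonneg_left _ (by norm_num)
      refine hle.trans ?_
      calc ∑ i ∈ Finset.range n, QQ (J (f i)) ≤ ∑ i ∈ Finset.range n, (1 : ℝ) := by
            apply Finset.sum_le_sum
            intro i hi
            have h1 := QQ_le (J (f i))
            rw [hJ1 i (Finset.mem_range.1 hi)] at h1
            linarith
        _ = n := by simp
    · obtain ⟨s, hs, hle⟩ := exists_sign_ge (fun i => J (f i)) n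
      rw [← hJ s hs]
      refine le_trans ?_ (QQ_le _)
      refine le_trans ?_ hle
      calc 2 / 3 * (n : ℝ) = ∑ i ∈ Finset.range n, (2 / 3 : ℝ) := by
            rw [Finset.sum_const, Finset.card_range, nsmul_eq_mul]
            ring
        _ ≤ ∑ i ∈ Finset.range n, QQ (J (f i)) := by
            apply Finset.sum_le_sum
            intro i hi
            have h1 := le_QQ (J (f i))
            rw [hJ1 i (Finset.mem_range.1 hi)] at h1
            linarith
  have hsq : ∀ n : ℕ, 0 < n → ((n : ℝ) ^ (1 / r)) ^ 2 = (n : ℝ) ^ (2 / r - 1) * n := by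
    intro n hn
    have hn' : (0 : ℝ) < n := by exact_mod_cast hn
    rw [← Real.rpow_natCast, ← Real.rpow_mul hn'.le, Real.rpow_sub hn', Real.rpow_one]
    rw [div_mul_cancel₀ _ hn'.ne']
    congr 1
    push_cast
    ring
  rcases lt_trichotomy (2 / r - 1) 0 with h1 | h1 | h1
  · exfalso
    have h2 : Tendsto (fun n : ℕ => (n : ℝ) ^ (2 / r - 1)) atTop (𝓝 0) := by
      have := (tendsto_rpow_neg_atTop (show 0 < -(2 / r - 1) by linarith)).comp
        tendsto_natCast_atTop_atTop
      simpa [Function.comp_def] using this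
    obtain ⟨n, hn1, hn2⟩ := ((h2.eventually_lt_const (show (0 : ℝ) < 2 / 3 by norm_num)).and
      (eventually_gt_atTop 0)).exists
    have h3 := (key n hn2).2
    rw [hsq n hn2] at h3
    have hn' : (0 : ℝ) < n := by exact_mod_cast hn2
    have := le_of_mul_le_mul_right h3 hn'
    linarith
  · have : 2 / r = 1 := by linarith
    rw [div_eq_one_iff_eq hr.ne'] at this
    exact this.symm
  · exfalso
    have h2 : Tendsto (fun n : ℕ => (n : ℝ) ^ (2 / r - 1)) atTop atTop :=
      (tendsto_rpow_atTop h1).comp tendsto_natCast_atTop_atTop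
    obtain ⟨n, hn1, hn2⟩ := ((h2.eventually_gt_atTop (3 / 2)).and
      (eventually_gt_atTop 0)).exists
    have h3 := (key n hn2).1
    rw [hsq n hn2] at h3
    have hn' : (0 : ℝ) < n := by exact_mod_cast hn2
    have := le_of_mul_le_mul_right h3 hn'
    linarith

/-- The space fails the parallelogram law. -/
theorem not_par : ‖ve 0 + vf 0‖ ^ 2 + ‖ve 0 - vf 0‖ ^ 2 ≠ 2 * (‖ve 0‖ ^ 2 + ‖vf 0‖ ^ 2) := by
  have e1 : ve 0 + vf 0 = pt 0 1 1 := by
    have := comb_ve_vf 0 1 1
    rwa [one_smul, one_smul] at this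
  have e2 : ve 0 - vf 0 = pt 0 1 (-1) := by
    have := comb_ve_vf 0 1 (-1)
    rwa [one_smul, neg_one_smul, ← sub_eq_add_neg] at this
  rw [e1, e2, ve, vf, norm_pt_sq, norm_pt_sq, norm_pt_sq, norm_pt_sq]
  have h := ep_pos 0
  simp [gg]
  intro h1
  linarith

/-- The space is not isometric to a Gurarii space. -/
theorem no_cube {G : Type*} [NormedAddCommGroup G] [NormedSpace ℝ G] (J : G ≃ₗᵢ[ℝ] XX)
    (S : (Fin 4 → ℝ) →ₗ[ℝ] G)
    (h : ∀ x, (1 - 1 / 10) * ‖x‖ ≤ ‖S x‖ ∧ ‖S x‖ ≤ (1 + 1 / 10) * ‖x‖) : False := by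
  let e : ℕ → (Fin 4 → ℝ) := fun i => if h : i < 4 then Pi.single (⟨i, h⟩ : Fin 4) (1 : ℝ) else 0
  have he : ∀ i < 4, ‖e i‖ = 1 := by
    intro i hi
    simp only [e]
    rw [dif_pos hi, Pi.norm_single]
    simp
  obtain ⟨s, hs, hle⟩ := exists_sign_ge (fun i => J (S (e i))) 4
  have h1 : ∑ i ∈ Finset.range 4, s i • J (S (e i)) = J (S (∑ i ∈ Finset.range 4, s i • e i)) := by
    rw [map_sum, map_sum]
    apply Finset.sum_congr rfl
    intro i _
    rw [map_smul, map_smul]
  have h2 : ‖∑ i ∈ Finset.range 4, s i • e i‖ ≤ 1 := by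
    rw [pi_norm_le_iff_of_nonneg zero_le_one]
    intro j
    have h3 : (∑ i ∈ Finset.range 4, s i • e i) j = s j := by
      rw [Finset.sum_apply, Finset.sum_eq_single (j : ℕ)]
      · simp only [e, Pi.smul_apply]
        rw [dif_pos j.2]
        simp
      · intro i hi hij
        have hi' := Finset.mem_range.1 hi
        simp only [e, Pi.smul_apply]
        rw [dif_pos hi', Pi.single_eq_of_ne, smul_zero]
        intro hj
        apply hij
        rw [hj]
      · intro hj
        exact absurd (Finset.mem_range.2 j.2) hj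
    rw [h3]
    rcases hs j with h4 | h4 <;> rw [h4] <;> simp
  rw [h1] at hle
  have h3 : QQ (J (S (∑ i ∈ Finset.range 4, s i • e i))) ≤ (11 / 10) ^ 2 := by
    refine (QQ_le _).trans ?_
    rw [J.norm_map]
    have h4 := (h (∑ i ∈ Finset.range 4, s i • e i)).2
    have h5 : ‖S (∑ i ∈ Finset.range 4, s i • e i)‖ ≤ 11 / 10 := by linarith
    nlinarith [norm_nonneg (S (∑ i ∈ Finset.range 4, s i • e i))]
  have h4 : ∀ i < 4, 27 / 50 ≤ QQ (J (S (e i))) := by
    intro i hi
    have h5 := le_QQ (J (S (e i)))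
    rw [J.norm_map] at h5
    have h6 := (h (e i)).1
    rw [he i hi] at h6
    nlinarith [norm_nonneg (S (e i))]
  have h5 : 4 * (27 / 50 : ℝ) ≤ ∑ i ∈ Finset.range 4, QQ (J (S (e i))) := by
    calc 4 * (27 / 50 : ℝ) = ∑ i ∈ Finset.range 4, (27 / 50 : ℝ) := by
          rw [Finset.sum_const, Finset.card_range, nsmul_eq_mul]
          norm_num
      _ ≤ _ := Finset.sum_le_sum (fun i hi => h4 i (Finset.mem_range.1 hi))
  have h6 : 4 * (27 / 50 : ℝ) ≤ (11 / 10) ^ 2 := h5.trans (hle.trans h3)
  norm_num at h6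

/-- Lebesgue measure on the unit interval. -/
noncomputable abbrev leb : Measure ℝ := volume.restrict (Set.Icc (0 : ℝ) 1)

theorem lp_vectors (p : ℝ≥0∞) [hp : Fact (1 ≤ p)] (hpt : p ≠ ⊤) (n : ℕ) (hn : 0 < n) :
    ∃ f : ℕ → Lp ℝ p leb, (∀ i < n, ‖f i‖ = 1) ∧
      ∀ s : ℕ → ℝ, IsSign s → ‖∑ i ∈ Finset.range n, s i • f i‖ = (n : ℝ) ^ (1 / p.toReal) := by
  have hp0 : p ≠ 0 := (zero_lt_one.trans_le hp.out).ne'
  have hpr : 0 < p.toReal := ENNReal.toReal_pos hp0 hpt
  have hn' : (0 : ℝ) < n := by exact_mod_cast hn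
  let I : ℕ → Set ℝ := fun i => Set.Ico ((i : ℝ) / n) (((i : ℝ) + 1) / n)
  have hIm : ∀ i, MeasurableSet (I i) := fun i => measurableSet_Ico
  have hIf : ∀ i, leb (I i) ≠ ⊤ := fun i => measure_ne_top _ _
  let c : ℝ := (n : ℝ) ^ (1 / p.toReal)
  have hc : 0 < c := by positivity
  have hIv : ∀ i < n, leb.real (I i) = 1 / n := by
    intro i hi
    have h1 : I i ∩ Set.Icc 0 1 = I i := by
      apply Set.inter_eq_left.2
      intro x hx
      have hi' : (i : ℝ) + 1 ≤ n := by exact_mod_cast hi
      constructor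
      · exact le_trans (by positivity) hx.1
      · refine hx.2.le.trans ?_
        rw [div_le_one hn']
        exact hi'
    rw [measureReal_def, Measure.restrict_apply (hIm i), h1]
    simp only [I]
    rw [Real.volume_Ico, ENNReal.toReal_ofReal]
    · field_simp
      ring
    · rw [← sub_div]
      apply div_nonneg _ hn'.le
      linarith
  refine ⟨fun i => indicatorConstLp p (hIm i) (hIf i) c, ?_, ?_⟩
  · intro i hi
    rw [norm_indicatorConstLp hp0 hpt, hIv i hi, Real.norm_eq_abs, abs_of_pos hc]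
    simp only [c]
    rw [← Real.mul_rpow hn'.le (by positivity), mul_one_div_cancel hn'.ne', Real.one_rpow]
  · intro s hs
    have hae : ∀ m : ℕ, (∑ i ∈ Finset.range m, s i • indicatorConstLp p (hIm i) (hIf i) c :
        Lp ℝ p leb) =ᵐ[leb] fun x => ∑ i ∈ Finset.range m, s i * (I i).indicator (fun _ => c) x := by
      intro m
      induction m with
      | zero =>
        simp only [Finset.range_zero, Finset.sum_empty]
        exact Lp.coeFn_zero _ _ _
      | succ m ih =>
        rw [Finset.sum_range_succ]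
        have h1 := Lp.coeFn_add (∑ i ∈ Finset.range m, s i •
          indicatorConstLp p (hIm i) (hIf i) c) (s m • indicatorConstLp p (hIm m) (hIf m) c)
        have h2 := Lp.coeFn_smul (s m) (indicatorConstLp p (hIm m) (hIf m) c : Lp ℝ p leb)
        have h3 : (indicatorConstLp p (hIm m) (hIf m) c : Lp ℝ p leb) =ᵐ[leb]
          (I m).indicator (fun _ => c) := indicatorConstLp_coeFn
        filter_upwards [ih, h1, h2, h3] with x hx1 hx2 hx3 hx4
        rw [hx2, Pi.add_apply, hx1, hx3, Pi.smul_apply, hx4, Finset.sum_range_succ, smul_eq_mul]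
    have h1 : ∀ᵐ x ∂leb, ‖(∑ i ∈ Finset.range n, s i • indicatorConstLp p (hIm i) (hIf i) c :
        Lp ℝ p leb) x‖ = ‖c‖ := by
      have hne : ∀ᵐ x ∂leb, x ≠ (1 : ℝ) := by
        rw [ae_iff]
        simp
      have hmem : ∀ᵐ x ∂leb, x ∈ Set.Icc (0 : ℝ) 1 := ae_restrict_mem measurableSet_Icc
      filter_upwards [hae n, hne, hmem] with x hx1 hx2 hx3
      rw [hx1]
      have hx4 : x < 1 := lt_of_le_of_ne hx3.2 hx2
      have hx0 : 0 ≤ x * n := mul_nonneg hx3.1 hn'.le
      let k := ⌊x * n⌋₊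
      have hk1 : (k : ℝ) ≤ x * n := Nat.floor_le hx0
      have hk2 : x * n < (k : ℝ) + 1 := Nat.lt_floor_add_one _
      have hk : k < n := by
        have : (k : ℝ) < n := by nlinarith
        exact_mod_cast this
      have hkI : x ∈ I k := ⟨by rw [div_le_iff₀ hn']; exact hk1, by
        rw [lt_div_iff₀ hn']; exact hk2⟩
      have hjI : ∀ j, j ≠ k → x ∉ I j := by
        intro j hj hxj
        have h2 := hxj.1
        have h3 := hxj.2
        rw [div_le_iff₀ hn'] at h2
        rw [lt_div_iff₀ hn'] at h3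
        apply hj
        have h4 : (j : ℝ) < (k : ℝ) + 1 := lt_of_le_of_lt h2 hk2
        have h5 : (k : ℝ) < (j : ℝ) + 1 := lt_of_le_of_lt hk1 h3
        have h6 : j < k + 1 := by exact_mod_cast h4
        have h7 : k < j + 1 := by exact_mod_cast h5
        omega
      rw [Finset.sum_eq_single k]
      · rw [Set.indicator_of_mem hkI]
        rcases hs k with h | h <;> rw [h] <;> simp
      · intro j _ hj
        rw [Set.indicator_of_notMem (hjI j hj), mul_zero]
      · intro h
        exact absurd (Finset.mem_range.2 hk) h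
    rw [Lp.norm_def, eLpNorm_congr_norm_ae h1, eLpNorm_const' c hp0 hpt]
    have h2 : leb Set.univ = 1 := by
      simp
    rw [h2, ENNReal.one_rpow, mul_one]
    simp only [toReal_enorm, Real.norm_eq_abs]
    exact abs_of_pos hc

/-- The space is not isometric to a Lebesgue space. -/
theorem not_Lp (p : ℝ≥0∞) [hp : Fact (1 ≤ p)] (hpt : p ≠ ⊤) (J : XX ≃ₗᵢ[ℝ] Lp ℝ p leb) :
    False := by
  have hp0 : p ≠ 0 := (zero_lt_one.trans_le hp.out).ne'
  have hpr : 0 < p.toReal := ENNReal.toReal_pos hp0 hpt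
  have h2 := exponent_two J.symm hpr (lp_vectors p hpt)
  have h3 : p = 2 := by
    rw [← ENNReal.ofReal_toReal hpt, h2]
    norm_num
  subst h3
  apply not_par
  have h4 := parallelogram_law_with_norm ℝ (J (ve 0)) (J (vf 0))
  rw [← map_add, ← map_sub, J.norm_map, J.norm_map, J.norm_map, J.norm_map] at h4
  nlinarith

end Pool.Agent.R278.LS
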