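import Pool.Agent.R278.LS.Core

/-!
# Rigidity of almost isometric embeddings and cofinality
-/

open Set Filter Topology

namespace Pool.Agent.R278.LS

/-- Pointwise convergence to zero is uniform on a finite-dimensional space. -/
theorem unif_small {G : Type*} [NormedAddCommGroup G] [NormedSpace ℝ G] [FiniteDimensional ℝ G]
    {I : Type} {l : Filter I} (κ : I → G →ₗ[ℝ] XX)
    (h : ∀ x, Tendsto (fun i => κ i x) l (𝓝 0)) {η : ℝ} (hη : 0 < η) :
    ∀ᶠ i in l, ∀ x, ‖κ i x‖ ≤ η * ‖x‖ := by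
  let b := Module.finBasis ℝ G
  let c : Fin (Module.finrank ℝ G) → (G →L[ℝ] ℝ) := fun i =>
    LinearMap.toContinuousLinearMap (b.coord i)
  let C : ℝ := ∑ i, ‖c i‖
  have hC : 0 ≤ C := Finset.sum_nonneg (fun i _ => norm_nonneg _)
  have hη' : 0 < η / (C + 1) := by positivity
  have h1 : ∀ᶠ i in l, ∀ j, ‖κ i (b j)‖ ≤ η / (C + 1) := by
    rw [Filter.eventually_all]
    intro j
    have h2 := (h (b j)).norm
    rw [norm_zero] at h2
    exact (h2.eventually_lt_const hη').mono (fun _ h => h.le)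
  filter_upwards [h1] with i hi x
  have hx : κ i x = ∑ j, b.coord j x • κ i (b j) := by
    conv_lhs => rw [← b.sum_repr x]
    rw [map_sum]
    simp only [map_smul, Module.Basis.coord_apply]
  rw [hx]
  calc ‖∑ j, b.coord j x • κ i (b j)‖ ≤ ∑ j, ‖b.coord j x • κ i (b j)‖ := norm_sum_le _ _
    _ ≤ ∑ j, (‖c j‖ * ‖x‖) * (η / (C + 1)) := by
        apply Finset.sum_le_sum
        intro j _
        rw [norm_smul]
        exact mul_le_mul ((c j).le_opNorm x) (hi j) (norm_nonneg _) (by positivity)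
    _ = C * (η / (C + 1)) * ‖x‖ := by
        rw [← Finset.sum_mul, ← Finset.sum_mul]
        ring
    _ ≤ η * ‖x‖ := by
        apply mul_le_mul_of_nonneg_right _ (norm_nonneg _)
        rw [mul_div_assoc', div_le_iff₀ (by positivity)]
        nlinarith

/-- The span of the first `m` blocks. -/
noncomputable def FF (m : ℕ) : Submodule ℝ XX := LinearMap.range (tr m).toLinearMap

theorem tr_tr (m : ℕ) (x : XX) : tr m (tr m x) = tr m x := tr_tr_of_le le_rfl x

theorem mem_FF {m : ℕ} {x : XX} : x ∈ FF m ↔ tr m x = x := by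
  constructor
  · rintro ⟨y, rfl⟩
    exact tr_tr m y
  · intro h
    exact ⟨x, h⟩

theorem tr_mem_FF (m : ℕ) (x : XX) : tr m x ∈ FF m := mem_FF.2 (tr_tr m x)

instance finiteDimensional_FF (m : ℕ) : FiniteDimensional ℝ (FF m) := by
  have h : FF m ≤ Submodule.span ℝ ((ve '' Set.Iio m) ∪ (vf '' Set.Iio m)) := by
    rintro _ ⟨y, rfl⟩
    change tr m y ∈ _
    rw [tr_eq_comb]
    apply Submodule.sum_mem
    intro k hk
    have hk' := Finset.mem_range.1 hk
    apply Submodule.add_mem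
    · exact Submodule.smul_mem _ _ (Submodule.subset_span (Or.inl ⟨k, hk', rfl⟩))
    · exact Submodule.smul_mem _ _ (Submodule.subset_span (Or.inr ⟨k, hk', rfl⟩))
  haveI : FiniteDimensional ℝ (Submodule.span ℝ ((ve '' Set.Iio m) ∪ (vf '' Set.Iio m))) :=
    FiniteDimensional.span_of_finite ℝ
      (((Set.finite_Iio m).image _).union ((Set.finite_Iio m).image _))
  exact Submodule.finiteDimensional_of_le h

theorem tr_pt_of_lt {k m : ℕ} (h : k < m) (s t : ℝ) : tr m (pt k s t) = pt k s t := by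
  apply lp.ext
  funext n
  rw [tr_apply]
  by_cases hn : n < m
  · rw [if_pos hn]
  · rw [if_neg hn, pt_apply_ne (by omega)]

theorem tr_pt_of_le {k m : ℕ} (h : m ≤ k) (s t : ℝ) : tr m (pt k s t) = 0 := by
  apply lp.ext
  funext n
  rw [tr_apply]
  by_cases hn : n < m
  · rw [if_pos hn, pt_apply_ne (by omega)]
    rfl
  · rw [if_neg hn]
    rfl

/-- The chain of block rigidities. -/
theorem chain {I : Type} {U : Ultrafilter I} {κ : I → XX →ₗ[ℝ] XX} {ν : XX → ℝ}
    {α β : ℕ → XX → ℝ} (hν : ∀ x, Tendsto (fun i => ‖κ i x‖) U (𝓝 (ν x)))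
    (hα : ∀ n x, Tendsto (fun i => ca n (κ i x)) U (𝓝 (α n x)))
    (hβ : ∀ n x, Tendsto (fun i => cb n (κ i x)) U (𝓝 (β n x))) (m₀ m : ℕ)
    (hA : ∀ k, m₀ ≤ k → k < m → ∀ s t : ℝ, ν (s • ve k + t • vf k) ^ 2 = gg (ep k) s t)
    (hB : ∀ k, m₀ ≤ k → k < m → ∀ n < k, ∀ u, (u = ve n ∨ u = vf n) → ∀ v, (v = ve k ∨ v = vf k) →
      ∀ s t : ℝ, ν (s • u + t • v) ^ 2 = s ^ 2 * ν u ^ 2 + t ^ 2 * ν v ^ 2)
    (hC : ∀ n < m₀, α n (ve n) * β n (vf n) - α n (vf n) * β n (ve n) ≠ 0) :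
    ∃ σ : ℕ → SP, ∀ k, m₀ ≤ k → k < m →
      Tendsto (fun i => κ i (ve k)) U (𝓝 (pt k (m11 (σ k)) (m21 (σ k)))) ∧
      Tendsto (fun i => κ i (vf k)) U (𝓝 (pt k (m12 (σ k)) (m22 (σ k)))) := by
  have key : ∀ k, m₀ ≤ k → k < m → ∃ σ : SP,
      (α k (ve k) = m11 σ ∧ β k (ve k) = m21 σ ∧ α k (vf k) = m12 σ ∧ β k (vf k) = m22 σ) ∧
      Tendsto (fun i => κ i (ve k)) U (𝓝 (pt k (m11 σ) (m21 σ))) ∧
      Tendsto (fun i => κ i (vf k)) U (𝓝 (pt k (m12 σ) (m22 σ))) := by
    intro k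
    induction k using Nat.strong_induction_on with
    | _ k ih =>
      intro hk hkm
      apply step hν hα hβ (hA k hk hkm) (hB k hk hkm)
      intro n hn
      by_cases h : n < m₀
      · exact hC n h
      · obtain ⟨σ, ⟨h1, h2, h3, h4⟩, -⟩ := ih n hn (not_lt.1 h) (hn.trans hkm)
        rw [h1, h2, h3, h4]
        exact det_ne σ
  have key2 : ∀ k, ∃ σ : SP, m₀ ≤ k → k < m →
      Tendsto (fun i => κ i (ve k)) U (𝓝 (pt k (m11 σ) (m21 σ))) ∧
      Tendsto (fun i => κ i (vf k)) U (𝓝 (pt k (m12 σ) (m22 σ))) := by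
    intro k
    by_cases h : m₀ ≤ k ∧ k < m
    · obtain ⟨σ, -, h2⟩ := key k h.1 h.2
      exact ⟨σ, fun _ _ => h2⟩
    · exact ⟨(true, true, true), fun h1 h2 => absurd ⟨h1, h2⟩ h⟩
  choose σ hσ using key2
  exact ⟨σ, hσ⟩

theorem act_ve (σ : ℕ → SP) (k : ℕ) : act σ (ve k) = pt k (m11 (σ k)) (m21 (σ k)) := by
  rw [ve, act_pt]
  simp

theorem act_vf (σ : ℕ → SP) (k : ℕ) : act σ (vf k) = pt k (m12 (σ k)) (m22 (σ k)) := by
  rw [vf, act_pt]
  simp

/-- Surjective isometries map basis vectors to their own block. -/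
theorem isometry_block (T : XX ≃ₗᵢ[ℝ] XX) (k : ℕ) :
    ∃ s t : ℝ, T (ve k) = pt k s t := by
  have hν : ∀ x, Tendsto (fun _ : Unit => ‖(T.toLinearEquiv.toLinearMap) x‖)
      (pure () : Ultrafilter Unit) (𝓝 ‖x‖) := by
    intro x
    have : (fun _ : Unit => ‖(T.toLinearEquiv.toLinearMap) x‖) = fun _ => ‖x‖ := by
      funext _
      exact T.norm_map x
    rw [this]
    exact tendsto_const_nhds
  obtain ⟨α, β, hα, hβ⟩ := exists_coord_lim hν
  obtain ⟨σ, hσ⟩ := chain hν hα hβ 0 (k + 1)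
    (by
      intro n _ _ s t
      rw [comb_ve_vf, norm_pt_sq])
    (by
      intro n _ _ j hj u hu v hv s t
      apply norm_sq_comb_of_disj
      intro i
      by_cases hi : i = j
      · right
        rcases hv with rfl | rfl
        · exact pt_apply_ne (by omega) _ _
        · exact pt_apply_ne (by omega) _ _
      · left
        rcases hu with rfl | rfl
        · exact pt_apply_ne hi _ _
        · exact pt_apply_ne hi _ _)
    (by
      intro n hn
      exact absurd hn (Nat.not_lt_zero n))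
  obtain ⟨h1, -⟩ := hσ k (Nat.zero_le k) (Nat.lt_succ_self k)
  refine ⟨m11 (σ k), m21 (σ k), ?_⟩
  exact tendsto_nhds_unique tendsto_const_nhds h1

theorem tendsto_of_bounds {I : Type} {l : Filter I} {f δ : I → ℝ} {r : ℝ}
    (hδ : Tendsto δ l (𝓝 0)) (h : ∀ᶠ i in l, (1 + δ i)⁻¹ * r ≤ f i ∧ f i ≤ (1 + δ i) * r) :
    Tendsto f l (𝓝 r) := by
  have h1 : Tendsto (fun i => (1 + δ i)⁻¹ * r) l (𝓝 r) := by
    have := ((hδ.const_add 1).inv₀ (by norm_num)).mul_const r
    simpa using this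
  have h2 : Tendsto (fun i => (1 + δ i) * r) l (𝓝 r) := by
    have := (hδ.const_add 1).mul_const r
    simpa using this
  exact tendsto_of_tendsto_of_tendsto_of_le_of_le' h1 h2 (h.mono fun _ h => h.1)
    (h.mono fun _ h => h.2)

theorem tendsto_one_div_hyper :
    Tendsto (fun i : ℕ => 1 / ((i : ℝ) + 1)) (hyperfilter ℕ : Filter ℕ) (𝓝 0) :=
  tendsto_one_div_add_atTop_nhds_zero_nat.mono_left Nat.hyperfilter_le_atTop

/-- Rigidity of almost isometric embeddings of the first `m` blocks. -/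
theorem rigid (m : ℕ) {ε : ℝ} (hε : 0 < ε) : ∃ δ : ℝ, 0 < δ ∧ ∀ κ : XX →ₗ[ℝ] XX,
    (∀ x ∈ FF m, (1 + δ)⁻¹ * ‖x‖ ≤ ‖κ x‖ ∧ ‖κ x‖ ≤ (1 + δ) * ‖x‖) →
    ∃ σ : ℕ → SP, ∀ x ∈ FF m, ‖κ x - act σ x‖ ≤ ε * ‖x‖ := by
  by_contra hcon
  push Not at hcon
  have hc : ∀ i : ℕ, ∃ κ : XX →ₗ[ℝ] XX,
      (∀ x ∈ FF m, (1 + 1 / ((i : ℝ) + 1))⁻¹ * ‖x‖ ≤ ‖κ x‖ ∧
        ‖κ x‖ ≤ (1 + 1 / ((i : ℝ) + 1)) * ‖x‖) ∧
      ∀ σ : ℕ → SP, ∃ x ∈ FF m, ε * ‖x‖ < ‖κ x - act σ x‖ := fun i =>
    hcon (1 / ((i : ℝ) + 1)) (by positivity)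
  choose κ hκ1 hκ2 using hc
  let κ' : ℕ → XX →ₗ[ℝ] XX := fun i => κ i ∘ₗ (tr m).toLinearMap
  have hκ' : ∀ i x, κ' i x = κ i (tr m x) := fun _ _ => rfl
  have hν : ∀ x, Tendsto (fun i => ‖κ' i x‖) (hyperfilter ℕ : Filter ℕ) (𝓝 ‖tr m x‖) := by
    intro x
    apply tendsto_of_bounds tendsto_one_div_hyper
    filter_upwards with i
    exact hκ1 i (tr m x) (tr_mem_FF m x)
  obtain ⟨α, β, hα, hβ⟩ := exists_coord_lim hν
  obtain ⟨σ, hσ⟩ := chain hν hα hβ 0 m
    (by
      intro n _ hn s t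
      rw [comb_ve_vf, tr_pt_of_lt hn, norm_pt_sq])
    (by
      intro n _ hn j hj u hu v hv s t
      have hu' : tr m u = u := by
        rcases hu with rfl | rfl
        · exact tr_pt_of_lt (hj.trans hn) _ _
        · exact tr_pt_of_lt (hj.trans hn) _ _
      have hv' : tr m v = v := by
        rcases hv with rfl | rfl
        · exact tr_pt_of_lt hn _ _
        · exact tr_pt_of_lt hn _ _
      rw [map_add, map_smul, map_smul, hu', hv']
      apply norm_sq_comb_of_disj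
      intro i
      by_cases hi : i = j
      · right
        rcases hv with rfl | rfl
        · exact pt_apply_ne (by omega) _ _
        · exact pt_apply_ne (by omega) _ _
      · left
        rcases hu with rfl | rfl
        · exact pt_apply_ne hi _ _
        · exact pt_apply_ne hi _ _)
    (by
      intro n hn
      exact absurd hn (Nat.not_lt_zero n))
  let D : ℕ → FF m →ₗ[ℝ] XX := fun i => (κ i - (act σ).toLinearEquiv.toLinearMap) ∘ₗ (FF m).subtype
  have hD : ∀ i x, D i x = κ i x - act σ x := fun _ _ => rfl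
  have hDt : ∀ x, Tendsto (fun i => D i x) (hyperfilter ℕ : Filter ℕ) (𝓝 0) := by
    intro x
    have hx : (x : XX) = ∑ k ∈ Finset.range m, (ca k (x : XX) • ve k + cb k (x : XX) • vf k) := by
      rw [← tr_eq_comb]
      exact (mem_FF.1 x.2).symm
    have h1 : ∀ i, D i x = ∑ k ∈ Finset.range m, (ca k (x : XX) • (κ' i (ve k) - act σ (ve k))
        + cb k (x : XX) • (κ' i (vf k) - act σ (vf k))) := by
      intro i
      rw [hD]
      conv_lhs => rw [hx]
      rw [map_sum, map_sum, ← Finset.sum_sub_distrib]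
      apply Finset.sum_congr rfl
      intro k hk
      have hk' := Finset.mem_range.1 hk
      rw [hκ', hκ', ve, vf, tr_pt_of_lt hk', tr_pt_of_lt hk']
      rw [map_add, map_add, map_smul, map_smul, map_smul, map_smul]
      module
    simp only [h1]
    rw [← Finset.sum_const_zero (s := Finset.range m)]
    apply tendsto_finsetSum
    intro k hk
    have hk' := Finset.mem_range.1 hk
    obtain ⟨h2, h3⟩ := hσ k (Nat.zero_le k) hk'
    rw [← act_ve σ k] at h2
    rw [← act_vf σ k] at h3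
    have h4 := ((h2.sub_const (act σ (ve k))).const_smul (ca k (x : XX))).add
      ((h3.sub_const (act σ (vf k))).const_smul (cb k (x : XX)))
    simpa using h4
  obtain ⟨i, hi⟩ := (unif_small D hDt hε).exists
  obtain ⟨x, hx, hx2⟩ := hκ2 i σ
  have := hi ⟨x, hx⟩
  rw [hD] at this
  exact absurd this (not_le.2 hx2)

end Pool.Agent.R278.LS
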