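import Pool.Agent.R278.LS.Block

/-!
# The sum of the blocks
-/

open Set Filter Topology
open scoped ENNReal

namespace Pool.Agent.R278.LS

/-- The square-summable sum of the blocks. -/
abbrev XX : Type := lp (fun n => Blk n) 2

theorem hasSum_sq (x : XX) : HasSum (fun n => ‖x n‖ ^ 2) (‖x‖ ^ 2) := by
  have h := lp.hasSum_norm (p := 2) (by norm_num) x
  simpa using h

/-- First coordinates. -/
noncomputable def ca (n : ℕ) : XX →ₗ[ℝ] ℝ where
  toFun x := (x n).fs
  map_add' _ _ := rfl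
  map_smul' _ _ := rfl

/-- Second coordinates. -/
noncomputable def cb (n : ℕ) : XX →ₗ[ℝ] ℝ where
  toFun x := (x n).sn
  map_add' _ _ := rfl
  map_smul' _ _ := rfl

theorem ca_apply (n : ℕ) (x : XX) : ca n x = (x n).fs := rfl
theorem cb_apply (n : ℕ) (x : XX) : cb n x = (x n).sn := rfl

theorem hasSum_gg (x : XX) : HasSum (fun n => gg (ep n) (ca n x) (cb n x)) (‖x‖ ^ 2) := by
  have h := hasSum_sq x
  simp only [Blk.norm_sq] at h
  exact h

theorem gg_le_norm_sq (x : XX) (n : ℕ) : gg (ep n) (ca n x) (cb n x) ≤ ‖x‖ ^ 2 := by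
  have h := hasSum_gg x
  rw [← h.tsum_eq]
  exact h.summable.le_tsum n (fun j _ => gg_nonneg (ep_pos j).le _ _)

theorem abs_ca_le (x : XX) (n : ℕ) : |ca n x| ≤ ‖x‖ := by
  apply abs_le_of_sq_le_sq _ (norm_nonneg _)
  have h1 := gg_le_norm_sq x n
  have h2 := sq_le_gg (ep_pos n).le (ca n x) (cb n x)
  nlinarith [sq_nonneg (cb n x)]

theorem abs_cb_le (x : XX) (n : ℕ) : |cb n x| ≤ ‖x‖ := by
  apply abs_le_of_sq_le_sq _ (norm_nonneg _)
  have h1 := gg_le_norm_sq x n
  have h2 := sq_le_gg (ep_pos n).le (ca n x) (cb n x)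
  nlinarith [sq_nonneg (ca n x)]

theorem ext_coord {x y : XX} (h1 : ∀ n, ca n x = ca n y) (h2 : ∀ n, cb n x = cb n y) :
    x = y := by
  apply lp.ext
  funext n
  exact Blk.ext' (h1 n) (h2 n)

/-- A point in one block. -/
noncomputable def pt (n : ℕ) (a b : ℝ) : XX := lp.single 2 n (Blk.mk n a b)

theorem ca_pt_self (n : ℕ) (a b : ℝ) : ca n (pt n a b) = a := by
  rw [ca_apply, pt, lp.single_apply_self, Blk.fs_mk]

theorem cb_pt_self (n : ℕ) (a b : ℝ) : cb n (pt n a b) = b := by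
  rw [cb_apply, pt, lp.single_apply_self, Blk.sn_mk]

theorem pt_apply_ne {n j : ℕ} (h : j ≠ n) (a b : ℝ) : pt n a b j = 0 := by
  rw [pt, lp.single_apply_ne _ _ _ h]

theorem ca_pt_ne {n j : ℕ} (h : j ≠ n) (a b : ℝ) : ca j (pt n a b) = 0 := by
  rw [ca_apply, pt_apply_ne h, Blk.fs_zero]

theorem cb_pt_ne {n j : ℕ} (h : j ≠ n) (a b : ℝ) : cb j (pt n a b) = 0 := by
  rw [cb_apply, pt_apply_ne h, Blk.sn_zero]

theorem pt_add (n : ℕ) (a b c d : ℝ) : pt n a b + pt n c d = pt n (a + c) (b + d) := by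
  rw [pt, pt, pt, ← Blk.mk_add, lp.single_add]

theorem smul_pt (n : ℕ) (c a b : ℝ) : c • pt n a b = pt n (c * a) (c * b) := by
  rw [pt, pt, ← Blk.smul_mk, lp.single_smul]

theorem norm_pt_sq (n : ℕ) (a b : ℝ) : ‖pt n a b‖ ^ 2 = gg (ep n) a b := by
  rw [pt, lp.norm_single (by norm_num), Blk.norm_sq, Blk.fs_mk, Blk.sn_mk]

/-- The first basis vector of a block. -/
noncomputable def ve (n : ℕ) : XX := pt n 1 0
/-- The second basis vector of a block. -/
noncomputable def vf (n : ℕ) : XX := pt n 0 1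

theorem comb_ve_vf (n : ℕ) (s t : ℝ) : s • ve n + t • vf n = pt n s t := by
  rw [ve, vf, smul_pt, smul_pt, pt_add]
  simp

/-- Disjoint supports. -/
def Disj (x y : XX) : Prop := ∀ n, x n = 0 ∨ y n = 0

theorem Disj.symm {x y : XX} (h : Disj x y) : Disj y x := fun n => (h n).symm

theorem norm_sq_add_of_disj {x y : XX} (h : Disj x y) : ‖x + y‖ ^ 2 = ‖x‖ ^ 2 + ‖y‖ ^ 2 := by
  have h1 := (hasSum_sq x).add (hasSum_sq y)
  refine (hasSum_sq (x + y)).unique ?_
  convert h1 using 2 with n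
  rw [lp.coeFn_add, Pi.add_apply]
  rcases h n with h0 | h0 <;> rw [h0] <;> simp

theorem Disj.smul {x y : XX} (h : Disj x y) (s t : ℝ) : Disj (s • x) (t • y) := by
  intro n
  rcases h n with h0 | h0
  · left
    rw [lp.coeFn_smul, Pi.smul_apply, h0, smul_zero]
  · right
    rw [lp.coeFn_smul, Pi.smul_apply, h0, smul_zero]

theorem Disj.add_left {x x' y : XX} (h : Disj x y) (h' : Disj x' y) : Disj (x + x') y := by
  intro n
  rcases h n with h0 | h0
  · rcases h' n with h1 | h1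
    · left
      rw [lp.coeFn_add, Pi.add_apply, h0, h1, add_zero]
    · exact Or.inr h1
  · exact Or.inr h0

theorem norm_sq_comb_of_disj {x y : XX} (h : Disj x y) (s t : ℝ) :
    ‖s • x + t • y‖ ^ 2 = s ^ 2 * ‖x‖ ^ 2 + t ^ 2 * ‖y‖ ^ 2 := by
  rw [norm_sq_add_of_disj (h.smul s t), norm_smul, norm_smul, mul_pow, mul_pow,
    Real.norm_eq_abs, Real.norm_eq_abs, sq_abs, sq_abs]

/-- Blockwise action of signed permutations. -/
noncomputable def actF (σ : ℕ → SP) (x : XX) : XX :=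
  ⟨fun n => spE n (σ n) (x n),
    Memℓp.mono' (lp.memℓp x) (fun n => ((spE n (σ n)).norm_map (x n)).le)⟩

/-- Blockwise action of inverses of signed permutations. -/
noncomputable def actB (σ : ℕ → SP) (x : XX) : XX :=
  ⟨fun n => (spE n (σ n)).symm (x n),
    Memℓp.mono' (lp.memℓp x) (fun n => ((spE n (σ n)).symm.norm_map (x n)).le)⟩

/-- Blockwise action of signed permutations. -/
noncomputable def act (σ : ℕ → SP) : XX ≃ₗᵢ[ℝ] XX where
  toFun := actF σ
  invFun := actB σ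
  map_add' x y := by
    apply lp.ext
    funext n
    exact (spE n (σ n)).map_add (x n) (y n)
  map_smul' c x := by
    apply lp.ext
    funext n
    exact (spE n (σ n)).map_smul c (x n)
  left_inv x := by
    apply lp.ext
    funext n
    exact (spE n (σ n)).symm_apply_apply (x n)
  right_inv x := by
    apply lp.ext
    funext n
    exact (spE n (σ n)).apply_symm_apply (x n)
  norm_map' x := by
    have h : ‖actF σ x‖ ^ 2 = ‖x‖ ^ 2 := by
      refine (hasSum_sq (actF σ x)).unique ?_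
      convert hasSum_sq x using 2 with n
      congr 1
      exact (spE n (σ n)).norm_map (x n)
    exact (sq_eq_sq₀ (norm_nonneg _) (norm_nonneg _)).1 h

theorem act_apply (σ : ℕ → SP) (x : XX) (n : ℕ) : act σ x n = spE n (σ n) (x n) := rfl

theorem ca_act (σ : ℕ → SP) (x : XX) (n : ℕ) :
    ca n (act σ x) = m11 (σ n) * ca n x + m12 (σ n) * cb n x := rfl

theorem cb_act (σ : ℕ → SP) (x : XX) (n : ℕ) :
    cb n (act σ x) = m21 (σ n) * ca n x + m22 (σ n) * cb n x := rfl

theorem act_pt (σ : ℕ → SP) (n : ℕ) (s t : ℝ) :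
    act σ (pt n s t) = pt n (m11 (σ n) * s + m12 (σ n) * t) (m21 (σ n) * s + m22 (σ n) * t) := by
  apply ext_coord
  · intro j
    rw [ca_act]
    by_cases h : j = n
    · subst h
      rw [ca_pt_self, cb_pt_self, ca_pt_self]
    · rw [ca_pt_ne h, cb_pt_ne h, ca_pt_ne h]
      ring
  · intro j
    rw [cb_act]
    by_cases h : j = n
    · subst h
      rw [ca_pt_self, cb_pt_self, cb_pt_self]
    · rw [ca_pt_ne h, cb_pt_ne h, cb_pt_ne h]
      ring

/-- Truncation to the first `m` blocks. -/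
noncomputable def tr (m : ℕ) : XX →L[ℝ] XX :=
  ∑ k ∈ Finset.range m, (lp.singleContinuousLinearMap ℝ (fun n => Blk n) 2 k).comp
    (lp.evalCLM ℝ (fun n => Blk n) 2 k)

theorem tr_eq_sum (m : ℕ) (x : XX) : tr m x = ∑ k ∈ Finset.range m, lp.single 2 k (x k) := by
  unfold tr
  rw [_root_.sum_apply]
  rfl

theorem tr_apply (m : ℕ) (x : XX) (n : ℕ) : tr m x n = if n < m then x n else 0 := by
  rw [tr_eq_sum, lp.coeFn_sum, Finset.sum_apply]
  by_cases h : n < m
  · rw [if_pos h, Finset.sum_eq_single n]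
    · rw [lp.single_apply_self]
    · intro j _ hj
      rw [lp.single_apply_ne _ _ _ hj.symm]
    · intro hn
      exact absurd (Finset.mem_range.2 h) hn
  · rw [if_neg h]
    apply Finset.sum_eq_zero
    intro j hj
    rw [lp.single_apply_ne]
    rintro rfl
    exact h (Finset.mem_range.1 hj)

theorem tr_eq_comb (m : ℕ) (x : XX) :
    tr m x = ∑ k ∈ Finset.range m, (ca k x • ve k + cb k x • vf k) := by
  rw [tr_eq_sum]
  apply Finset.sum_congr rfl
  intro k _
  rw [comb_ve_vf]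
  rfl

theorem tendsto_tr (x : XX) : Tendsto (fun m => tr m x) atTop (𝓝 x) := by
  have h := (lp.hasSum_single (p := 2) (by norm_num) x).tendsto_sum_nat
  refine h.congr ?_
  intro m
  rw [tr_eq_sum]

theorem disj_tr (m : ℕ) (x : XX) : Disj (tr m x) (x - tr m x) := by
  intro n
  by_cases h : n < m
  · right
    rw [lp.coeFn_sub, Pi.sub_apply, tr_apply, if_pos h, sub_self]
  · left
    rw [tr_apply, if_neg h]

theorem norm_sq_tr (m : ℕ) (x : XX) : ‖x‖ ^ 2 = ‖tr m x‖ ^ 2 + ‖x - tr m x‖ ^ 2 := by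
  rw [← norm_sq_add_of_disj (disj_tr m x), add_sub_cancel]

theorem norm_tr_le (m : ℕ) (x : XX) : ‖tr m x‖ ≤ ‖x‖ := by
  apply (sq_le_sq₀ (norm_nonneg _) (norm_nonneg _)).1
  rw [norm_sq_tr m x]
  nlinarith [sq_nonneg ‖x - tr m x‖]

theorem norm_sub_tr_le (m : ℕ) (x : XX) : ‖x - tr m x‖ ≤ ‖x‖ := by
  apply (sq_le_sq₀ (norm_nonneg _) (norm_nonneg _)).1
  rw [norm_sq_tr m x]
  nlinarith [sq_nonneg ‖tr m x‖]

theorem tr_tr_of_le {m k : ℕ} (h : m ≤ k) (x : XX) : tr m (tr k x) = tr m x := by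
  apply lp.ext
  funext n
  rw [tr_apply, tr_apply, tr_apply]
  by_cases h1 : n < m
  · rw [if_pos h1, if_pos (lt_of_lt_of_le h1 h), if_pos h1]
  · rw [if_neg h1, if_neg h1]

/-- Second differences of the squared norm dominate those of a block. -/
theorem second_diff (x y : XX) (n : ℕ) :
    gg (ep n) (ca n x + ca n y) (cb n x + cb n y) + gg (ep n) (ca n x - ca n y) (cb n x - cb n y)
      - 2 * gg (ep n) (ca n x) (cb n x) ≤ ‖x + y‖ ^ 2 + ‖x - y‖ ^ 2 - 2 * ‖x‖ ^ 2 := by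
  have h1 := ((hasSum_sq (x + y)).add (hasSum_sq (x - y))).sub ((hasSum_sq x).mul_left 2)
  have h2 : ∀ j, 0 ≤ ‖(x + y) j‖ ^ 2 + ‖(x - y) j‖ ^ 2 - 2 * ‖x j‖ ^ 2 := by
    intro j
    have h3 : 2 * ‖x j‖ ≤ ‖(x + y) j‖ + ‖(x - y) j‖ := by
      have h4 : (x + y) j + (x - y) j = (2 : ℝ) • x j := by
        rw [lp.coeFn_add, lp.coeFn_sub, Pi.add_apply, Pi.sub_apply, two_smul]
        abel
      have h5 : ‖(2 : ℝ) • x j‖ = 2 * ‖x j‖ := by
        rw [norm_smul]
        norm_num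
      rw [← h5, ← h4]
      exact norm_add_le _ _
    nlinarith [sq_nonneg (‖(x + y) j‖ - ‖(x - y) j‖), norm_nonneg (x j),
      norm_nonneg ((x + y) j), norm_nonneg ((x - y) j)]
  have h3 := le_hasSum h1 n (fun j _ => h2 j)
  rw [Blk.norm_sq, Blk.norm_sq, Blk.norm_sq] at h3
  exact h3

/-- The defect term. -/
noncomputable def tt (a a' b b' : ℝ) : ℝ :=
  |(a + b) * (a' + b')| + |(a - b) * (a' - b')| - 2 * |a * a'| - 2 * |b * b'|

/-- The squared Hilbert-Schmidt norm. -/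
noncomputable def hs (a a' b b' : ℝ) : ℝ := a ^ 2 + a' ^ 2 + b ^ 2 + b' ^ 2

theorem gg_defect (e a a' b b' : ℝ) :
    gg e (a + b) (a' + b') + gg e (a - b) (a' - b') - 2 * gg e a a' - 2 * gg e b b'
      = 2 * e * tt a a' b b' := by
  unfold gg tt
  ring

theorem tt_le_hs (a a' b b' : ℝ) : tt a a' b b' ≤ hs a a' b b' := by
  unfold tt hs
  have h1 : (a + b) * (a' + b') = (a * a' + b * b') + (a * b' + a' * b) := by ring
  have h2 : (a - b) * (a' - b') = (a * a' + b * b') - (a * b' + a' * b) := by ring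
  rw [h1, h2]
  have h3 : |a * a' + b * b'| ≤ |a * a'| + |b * b'| := abs_add_le _ _
  have h4 : |a * b' + a' * b| ≤ (a ^ 2 + a' ^ 2 + b ^ 2 + b' ^ 2) / 2 := by
    apply abs_le.2
    constructor
    · nlinarith [sq_nonneg (a + b'), sq_nonneg (a' + b)]
    · nlinarith [sq_nonneg (a - b'), sq_nonneg (a' - b)]
  have h5 : 0 ≤ |a * a'| := abs_nonneg _
  have h6 : 0 ≤ |b * b'| := abs_nonneg _
  generalize a * a' + b * b' = P at *
  generalize a * b' + a' * b = R at *
  rcases abs_cases (P + R) with ⟨e1, _⟩ | ⟨e1, _⟩ <;> rcases abs_cases (P - R) with ⟨e2, _⟩ | ⟨e2, _⟩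
    <;> rcases abs_cases P with ⟨e3, _⟩ | ⟨e3, _⟩ <;> rcases abs_cases R with ⟨e4, _⟩ | ⟨e4, _⟩
    <;> rw [e1, e2] <;> rw [e3] at h3 <;> rw [e4] at h4
    <;> nlinarith [sq_nonneg a, sq_nonneg a', sq_nonneg b, sq_nonneg b']

/-- The defect inequality. -/
theorem defect_le (x y : XX) (k : ℕ) :
    ‖x + y‖ ^ 2 + ‖x - y‖ ^ 2 - 2 * ‖x‖ ^ 2 - 2 * ‖y‖ ^ 2 ≤
      (∑ n ∈ Finset.range k, hs (ca n x) (cb n x) (ca n y) (cb n y)) +
      (2 * ep k * tt (ca k x) (cb k x) (ca k y) (cb k y)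
        - 2 * ep (k + 1) * hs (ca k x) (cb k x) (ca k y) (cb k y))
      + 2 * ep (k + 1) * (‖x‖ ^ 2 + ‖y‖ ^ 2) := by
  classical
  let c : ℕ → ℝ := fun n => if n < k then hs (ca n x) (cb n x) (ca n y) (cb n y) else
    if n = k then 2 * ep k * tt (ca k x) (cb k x) (ca k y) (cb k y)
        - 2 * ep (k + 1) * hs (ca k x) (cb k x) (ca k y) (cb k y) else 0
  have hc : HasSum c (∑ n ∈ Finset.range (k + 1), c n) := by
    apply hasSum_sum_of_ne_finset_zero
    intro n hn
    rw [Finset.mem_range, not_lt] at hn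
    simp only [c]
    rw [if_neg (by omega), if_neg (by omega)]
  have hc' : ∑ n ∈ Finset.range (k + 1), c n =
      (∑ n ∈ Finset.range k, hs (ca n x) (cb n x) (ca n y) (cb n y)) +
      (2 * ep k * tt (ca k x) (cb k x) (ca k y) (cb k y)
        - 2 * ep (k + 1) * hs (ca k x) (cb k x) (ca k y) (cb k y)) := by
    rw [Finset.sum_range_succ]
    congr 1
    · apply Finset.sum_congr rfl
      intro n hn
      simp only [c]
      rw [if_pos (Finset.mem_range.1 hn)]
    · simp [c]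
  rw [hc'] at hc
  have h1 := (((hasSum_gg (x + y)).add (hasSum_gg (x - y))).sub ((hasSum_gg x).mul_left 2)).sub
    ((hasSum_gg y).mul_left 2)
  have h2 := hc.add (((hasSum_gg x).add (hasSum_gg y)).mul_left (2 * ep (k + 1)))
  refine hasSum_le ?_ h1 h2
  intro n
  simp only [map_add, map_sub]
  rw [gg_defect]
  have ht := tt_le_hs (ca n x) (cb n x) (ca n y) (cb n y)
  have hh : hs (ca n x) (cb n x) (ca n y) (cb n y) ≤
      gg (ep n) (ca n x) (cb n x) + gg (ep n) (ca n y) (cb n y) := by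
    have h5 := sq_le_gg (ep_pos n).le (ca n x) (cb n x)
    have h6 := sq_le_gg (ep_pos n).le (ca n y) (cb n y)
    unfold hs
    linarith
  have hh0 : 0 ≤ hs (ca n x) (cb n x) (ca n y) (cb n y) := by
    unfold hs
    positivity
  have hk1 := ep_pos (k + 1)
  have hn1 := ep_pos n
  simp only [c]
  split_ifs with h3 h4
  · have h5 : 2 * ep n ≤ 1 := by
      have := ep_le n
      linarith
    have h6 : 2 * ep n * tt (ca n x) (cb n x) (ca n y) (cb n y) ≤
        2 * ep n * hs (ca n x) (cb n x) (ca n y) (cb n y) :=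
      mul_le_mul_of_nonneg_left ht (by positivity)
    have h7 : 2 * ep n * hs (ca n x) (cb n x) (ca n y) (cb n y) ≤
        1 * hs (ca n x) (cb n x) (ca n y) (cb n y) := mul_le_mul_of_nonneg_right h5 hh0
    have h8 : 0 ≤ 2 * ep (k + 1) * (gg (ep n) (ca n x) (cb n x) + gg (ep n) (ca n y) (cb n y)) :=
      mul_nonneg (by positivity) (hh0.trans hh)
    linarith
  · subst h4
    have h8 := mul_le_mul_of_nonneg_left hh (show 0 ≤ 2 * ep (n + 1) by positivity)
    linarith
  · have h5 : ep n ≤ ep (k + 1) := ep_anti.antitone (by omega)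
    have h6 : 2 * ep n * tt (ca n x) (cb n x) (ca n y) (cb n y) ≤
        2 * ep n * hs (ca n x) (cb n x) (ca n y) (cb n y) :=
      mul_le_mul_of_nonneg_left ht (by positivity)
    have h7 : 2 * ep n * hs (ca n x) (cb n x) (ca n y) (cb n y) ≤
        2 * ep (k + 1) * hs (ca n x) (cb n x) (ca n y) (cb n y) :=
      mul_le_mul_of_nonneg_right (by linarith) hh0
    have h8 := mul_le_mul_of_nonneg_left hh (show 0 ≤ 2 * ep (k + 1) by positivity)
    linarith

end Pool.Agent.R278.LS
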